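import Pool.Agent.Lib.DedekindLog

/-!
# Euler products of completely multiplicative functions on ideals

`χ` completely multiplicative and bounded by 1 on the ideals of a number field;
`LL χ s = ∑ χ(I) N(I)^(-s)`, `PS χ s = Re ∑_P χ(P) N(P)^(-s)`; for `s > 1`
`|log |LL χ s| - PS χ s| ≤ C`, `C` depending only on the field.
-/

open NumberField IsDedekindDomain Filter Topology Finset Pool.Agent.Lib.Dedekind

namespace Pool.NVR

variable {F : Type*} [Field F] [NumberField F]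

/-- Completely multiplicative functions bounded by 1. -/
structure CM (χ : Ideal (𝓞 F) → ℂ) : Prop where
  one : χ 1 = 1
  mul : ∀ I J, χ (I * J) = χ I * χ J
  le : ∀ I, ‖χ I‖ ≤ 1

/-- the term -/
noncomputable def wc (χ : Ideal (𝓞 F) → ℂ) (s : ℝ) (I : Ideal (𝓞 F)) : ℂ := χ I * (wt F s I : ℂ)

/-- the L-series at real `s` -/
noncomputable def LL (χ : Ideal (𝓞 F) → ℂ) (s : ℝ) : ℂ := ∑' I : Ideal (𝓞 F), wc χ s I

/-- the real part of the prime sum -/
noncomputable def PS (χ : Ideal (𝓞 F) → ℂ) (s : ℝ) : ℝ :=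
  ∑' P : HeightOneSpectrum (𝓞 F), (wc χ s P.asIdeal).re

variable {χ : Ideal (𝓞 F) → ℂ}

lemma norm_wc_le (h : CM χ) (s : ℝ) (I : Ideal (𝓞 F)) : ‖wc χ s I‖ ≤ wt F s I := by
  unfold wc
  rw [norm_mul, Complex.norm_real, Real.norm_of_nonneg (wt_nonneg _ _)]
  exact mul_le_of_le_one_left (wt_nonneg _ _) (h.le I)

lemma wc_mul (h : CM χ) (s : ℝ) (I J : Ideal (𝓞 F)) : wc χ s (I * J) = wc χ s I * wc χ s J := by
  unfold wc
  rw [h.mul, wt_mul, Complex.ofReal_mul]
  ring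

lemma summable_wc (h : CM χ) {s : ℝ} (hs : 1 < s) : Summable (wc χ s) :=
  Summable.of_norm_bounded (summable_wt hs) (norm_wc_le h s)

open Classical in
/-- the terms prime to `S` -/
noncomputable def fC (χ : Ideal (𝓞 F) → ℂ) (s : ℝ) (S : Finset (HeightOneSpectrum (𝓞 F)))
    (I : Ideal (𝓞 F)) : ℂ :=
  if ∀ P ∈ S, ¬ (P.asIdeal ∣ I) then wc χ s I else 0

lemma norm_fC_le (h : CM χ) (s : ℝ) (S : Finset (HeightOneSpectrum (𝓞 F))) (I : Ideal (𝓞 F)) :
    ‖fC χ s S I‖ ≤ wt F s I := by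
  unfold fC
  split_ifs
  · exact norm_wc_le h s I
  · rw [norm_zero]
    exact wt_nonneg _ _

lemma summable_fC (h : CM χ) {s : ℝ} (hs : 1 < s) (S : Finset (HeightOneSpectrum (𝓞 F))) :
    Summable (fC χ s S) :=
  Summable.of_norm_bounded (summable_wt hs) (norm_fC_le h s S)

lemma fC_mul (h : CM χ) {s : ℝ} {S : Finset (HeightOneSpectrum (𝓞 F))}
    {P : HeightOneSpectrum (𝓞 F)} (hP : P ∉ S) (J : Ideal (𝓞 F)) :
    fC χ s S (P.asIdeal * J) = wc χ s P.asIdeal * fC χ s S J := by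
  have h' : (∀ Q ∈ S, ¬ (Q.asIdeal ∣ P.asIdeal * J)) ↔ (∀ Q ∈ S, ¬ (Q.asIdeal ∣ J)) := by
    refine forall₂_congr (fun Q hQ ↦ not_congr ⟨fun hd ↦ ?_, fun hd ↦ hd.mul_left _⟩)
    rcases Q.prime.dvd_or_dvd hd with h1 | h1
    · exfalso
      have h2 : P.asIdeal ≤ Q.asIdeal := Ideal.dvd_iff_le.1 h1
      have h3 : P.asIdeal = Q.asIdeal := P.isMaximal.eq_of_le Q.isPrime.ne_top h2
      have : P = Q := HeightOneSpectrum.ext h3
      exact hP (this ▸ hQ)
    · exact h1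
  unfold fC
  by_cases h1 : ∀ Q ∈ S, ¬ (Q.asIdeal ∣ J)
  · rw [if_pos h1, if_pos (h'.2 h1), wc_mul h]
  · rw [if_neg h1, if_neg (fun h2 ↦ h1 (h'.1 h2)), mul_zero]

lemma tsum_fC_insert (h : CM χ) {s : ℝ} (hs : 1 < s) {S : Finset (HeightOneSpectrum (𝓞 F))}
    {P : HeightOneSpectrum (𝓞 F)} (hP : P ∉ S) [DecidableEq (HeightOneSpectrum (𝓞 F))] :
    ∑' I, fC χ s (insert P S) I = (1 - wc χ s P.asIdeal) * ∑' I, fC χ s S I := by
  classical
  have hinj : Function.Injective (fun J : Ideal (𝓞 F) ↦ P.asIdeal * J) :=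
    fun J J' h ↦ mul_left_cancel₀ P.ne_bot h
  have h1 : ∑' I, (fC χ s S I - fC χ s (insert P S) I) = wc χ s P.asIdeal * ∑' I, fC χ s S I := by
    rw [← tsum_mul_left, ← hinj.tsum_eq]
    · refine tsum_congr (fun J ↦ ?_)
      have h2 : fC χ s (insert P S) (P.asIdeal * J) = 0 := by
        unfold fC
        rw [if_neg]
        intro h
        exact h P (Finset.mem_insert_self _ _) (dvd_mul_right _ _)
      rw [h2, sub_zero, fC_mul h hP]
    · intro I hI
      by_contra hcon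
      apply hI
      have h3 : ¬ (P.asIdeal ∣ I) := by
        rintro ⟨J, rfl⟩
        exact hcon ⟨J, rfl⟩
      change fC χ s S I - fC χ s (insert P S) I = 0
      unfold fC
      by_cases h4 : ∀ Q ∈ S, ¬ (Q.asIdeal ∣ I)
      · rw [if_pos h4, if_pos, sub_self]
        intro Q hQ
        rcases Finset.mem_insert.1 hQ with rfl | hQ
        · exact h3
        · exact h4 Q hQ
      · rw [if_neg h4, if_neg, sub_self]
        intro h5
        exact h4 (fun Q hQ ↦ h5 Q (Finset.mem_insert_of_mem hQ))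
  rw [Summable.tsum_sub (summable_fC h hs S) (summable_fC h hs _)] at h1
  linear_combination -h1

lemma prod_eqC (h : CM χ) {s : ℝ} (hs : 1 < s) (S : Finset (HeightOneSpectrum (𝓞 F))) :
    ∑' I, fC χ s S I = (∏ P ∈ S, (1 - wc χ s P.asIdeal)) * LL χ s := by
  classical
  induction S using Finset.induction_on with
  | empty =>
    rw [Finset.prod_empty, one_mul]
    unfold LL
    refine tsum_congr (fun I ↦ ?_)
    unfold fC; simp
  | insert P S hP ih => rw [tsum_fC_insert h hs hP, ih, Finset.prod_insert hP]; ring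

lemma tendsto_fC (h : CM χ) {s : ℝ} (hs : 1 < s) :
    Tendsto (fun S : Finset (HeightOneSpectrum (𝓞 F)) ↦ ∑' I, fC χ s S I) atTop (𝓝 1) := by
  classical
  have h1 : ∑' I : Ideal (𝓞 F), (if I = ⊤ then (1:ℂ) else 0) = 1 := by
    rw [tsum_ite_eq]
  rw [← h1]
  refine tendsto_tsum_of_dominated_convergence (summable_wt hs) (fun I ↦ ?_)
    (Eventually.of_forall fun S I ↦ norm_fC_le h s S I)
  by_cases hI : I = ⊤
  · rw [if_pos hI]
    refine tendsto_const_nhds.congr (fun S ↦ ?_)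
    rw [hI]
    unfold fC
    rw [if_pos]
    · unfold wc
      rw [wt_top, ← Ideal.one_eq_top, h.one]
      simp
    · intro P _ h
      exact P.isPrime.ne_top (top_le_iff.1 (Ideal.dvd_iff_le.1 h))
  · rw [if_neg hI]
    by_cases hI0 : I = ⊥
    · refine tendsto_const_nhds.congr (fun S ↦ ?_)
      have := norm_fC_le h s S I
      rw [hI0, wt_bot (by linarith)] at this
      rw [hI0]
      exact (norm_le_zero_iff.1 this).symm
    · obtain ⟨M, hM, hIM⟩ := Ideal.exists_le_maximal I hI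
      have hM0 : M ≠ ⊥ := by
        rintro rfl
        exact hI0 (le_bot_iff.1 hIM)
      let P : HeightOneSpectrum (𝓞 F) := ⟨M, hM.isPrime, hM0⟩
      refine tendsto_const_nhds.congr' ?_
      filter_upwards [eventually_ge_atTop {P}] with S hS
      unfold fC
      rw [if_neg]
      intro h
      exact h P (hS (Finset.mem_singleton_self P)) (Ideal.dvd_iff_le.2 hIM)

/-- `|log |1 - z| + Re z| ≤ |z|²` for `|z| ≤ 1/2`. -/
lemma log_norm_one_sub {z : ℂ} (hz : ‖z‖ ≤ 1 / 2) : |Real.log ‖1 - z‖ + z.re| ≤ ‖z‖ ^ 2 := by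
  have h1 : ‖-z‖ < 1 := by rw [norm_neg]; linarith
  have h2 := Complex.norm_log_one_add_sub_self_le h1
  rw [norm_neg] at h2
  have h3 : Real.log ‖1 - z‖ + z.re = (Complex.log (1 + -z) - -z).re := by
    rw [Complex.sub_re, Complex.log_re, Complex.neg_re, sub_neg_eq_add, ← sub_eq_add_neg]
  rw [h3]
  refine (Complex.abs_re_le_norm _).trans (h2.trans ?_)
  have h4 : (1 - ‖z‖)⁻¹ ≤ 2 := by
    rw [inv_le_comm₀ (by linarith) (by norm_num)]
    linarith
  nlinarith [sq_nonneg ‖z‖, norm_nonneg z]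

lemma wc_half (h : CM χ) {s : ℝ} (hs : 1 ≤ s) (P : HeightOneSpectrum (𝓞 F)) :
    ‖wc χ s P.asIdeal‖ ≤ 1 / 2 :=
  (norm_wc_le h s _).trans (wt_le_half hs P)

lemma summable_PS (h : CM χ) {s : ℝ} (hs : 1 < s) :
    Summable fun P : HeightOneSpectrum (𝓞 F) ↦ (wc χ s P.asIdeal).re :=
  Summable.of_norm_bounded (summable_wt_prime hs) fun P ↦ by
    rw [Real.norm_eq_abs]
    exact (Complex.abs_re_le_norm _).trans (norm_wc_le h s _)

lemma sum_sq_le {s : ℝ} (hs : 1 < s) (S : Finset (HeightOneSpectrum (𝓞 F))) :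
    ∑ P ∈ S, wt F s P.asIdeal ^ 2 ≤ ZZ F 2 := by
  have h0 : ∑ P ∈ S, wt F s P.asIdeal ^ 2 ≤ ∑ P ∈ S, wt F 2 P.asIdeal := by
    refine Finset.sum_le_sum fun P _ ↦ ?_
    have hN : (2:ℝ) ≤ Ideal.absNorm P.asIdeal := by exact_mod_cast absNorm_ge_two P
    unfold wt
    rw [← Real.rpow_natCast, ← Real.rpow_mul (by positivity)]
    apply Real.rpow_le_rpow_of_exponent_le (by linarith)
    push_cast; linarith
  refine h0.trans (((summable_wt_prime (F := F) (by norm_num)).sum_le_tsum S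
    fun P _ ↦ wt_nonneg _ _).trans ?_)
  unfold ZZ
  exact (summable_wt_prime (F := F) (by norm_num)).tsum_le_tsum_of_inj
    (fun P : HeightOneSpectrum (𝓞 F) ↦ P.asIdeal) (fun _ _ h ↦ HeightOneSpectrum.ext h)
    (fun I _ ↦ wt_nonneg _ _) (fun P ↦ le_rfl) (summable_wt (by norm_num))

/-- The two-sided estimate. -/
theorem LL_ne_zero (h : CM χ) {s : ℝ} (hs : 1 < s) : LL χ s ≠ 0 := by
  intro h0
  have h1 := tendsto_fC h hs
  have h2 : (fun S : Finset (HeightOneSpectrum (𝓞 F)) ↦ ∑' I, fC χ s S I) = fun _ ↦ 0 := by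
    funext S
    rw [prod_eqC h hs, h0, mul_zero]
  rw [h2] at h1
  exact zero_ne_one (tendsto_nhds_unique tendsto_const_nhds h1)

theorem log_LL (h : CM χ) {s : ℝ} (hs : 1 < s) :
    |Real.log ‖LL χ s‖ - PS χ s| ≤ ZZ F 2 := by
  have hL := LL_ne_zero h hs
  have h1 := (tendsto_fC h hs).norm
  rw [norm_one] at h1
  have h2 := h1.log one_ne_zero
  rw [Real.log_one] at h2
  have h3 : Tendsto (fun S : Finset (HeightOneSpectrum (𝓞 F)) ↦
      ∑ P ∈ S, (wc χ s P.asIdeal).re) atTop (𝓝 (PS χ s)) := (summable_PS h hs).hasSum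
  have h4 : ∀ S : Finset (HeightOneSpectrum (𝓞 F)),
      |Real.log ‖∑' I, fC χ s S I‖ + ∑ P ∈ S, (wc χ s P.asIdeal).re - Real.log ‖LL χ s‖| ≤
        ZZ F 2 := by
    intro S
    have hne : ∀ P ∈ S, ‖1 - wc χ s P.asIdeal‖ ≠ 0 := by
      intro P _
      rw [norm_ne_zero_iff]
      intro h5
      have h6 : wc χ s P.asIdeal = 1 := (sub_eq_zero.1 h5).symm
      have h7 := wc_half h hs.le P
      rw [h6, norm_one] at h7
      norm_num at h7
    rw [prod_eqC h hs, norm_mul, norm_prod, Real.log_mul (Finset.prod_ne_zero_iff.2 hne)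
      (norm_ne_zero_iff.2 hL), Real.log_prod hne]
    have h5 : ∑ P ∈ S, Real.log ‖1 - wc χ s P.asIdeal‖ + Real.log ‖LL χ s‖ +
        ∑ P ∈ S, (wc χ s P.asIdeal).re - Real.log ‖LL χ s‖ =
        ∑ P ∈ S, (Real.log ‖1 - wc χ s P.asIdeal‖ + (wc χ s P.asIdeal).re) := by
      rw [Finset.sum_add_distrib]
      ring
    rw [h5]
    refine (Finset.abs_sum_le_sum_abs _ _).trans (le_trans (Finset.sum_le_sum fun P _ ↦ ?_)
      (sum_sq_le hs S))
    refine (log_norm_one_sub (wc_half h hs.le P)).trans ?_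
    have := norm_wc_le h s P.asIdeal
    have h0 := norm_nonneg (wc χ s P.asIdeal)
    gcongr
  have h5 := ((h2.add h3).sub_const (Real.log ‖LL χ s‖)).abs
  have h6 := le_of_tendsto h5 (Eventually.of_forall h4)
  rw [zero_add] at h6
  rw [abs_sub_comm]
  exact h6

end Pool.NVR
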