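import Pool.Agent.HRC.Main
import Pool.Agent.CMZ.Mult

/-!
# The primitive character inducing a ray class character
-/

open scoped NumberField nonZeroDivisors
open NumberField Pool.Agent.CMZ Pool.Agent.CMZ.MultAux Pool.HRC

namespace Pool.NVR

variable {K : Type} [Field K] [NumberField K]

/-- Adding a large multiple of an integer makes a number totally positive. -/
theorem exists_totPos {N : ℕ} (hN : 0 < N) (x : 𝓞 K) :
    ∃ k : ℕ, TotPos K (x + (k : 𝓞 K) * N) ∧ x + (k : 𝓞 K) * N ≠ 0 := by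
  have hN' : (0 : ℝ) < N := by exact_mod_cast hN
  have h1 : ∀ φ : K →+* ℝ, ∀ᶠ k : ℕ in Filter.atTop, 0 < φ ((x + (k : 𝓞 K) * N : 𝓞 K) : K) := by
    intro φ
    obtain ⟨k0, hk0⟩ := exists_nat_gt (|φ (x : K)| / N)
    filter_upwards [Filter.eventually_ge_atTop k0] with k hk
    have h2 : φ ((x + (k : 𝓞 K) * N : 𝓞 K) : K) = φ (x : K) + k * N := by
      push_cast
      rw [map_add, map_mul, map_natCast, map_natCast]
    rw [h2]
    rw [div_lt_iff₀ hN'] at hk0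
    have h3 : (k0 : ℝ) ≤ k := by exact_mod_cast hk
    have h4 : -|φ (x : K)| ≤ φ (x : K) := neg_abs_le _
    nlinarith
  obtain ⟨k0, hk0⟩ := Filter.eventually_atTop.1 (Filter.eventually_all.2 h1)
  by_cases h0 : x + (k0 : 𝓞 K) * N = 0
  · refine ⟨k0 + 1, fun φ => hk0 (k0 + 1) (by omega) φ, ?_⟩
    have h5 : x + ((k0 + 1 : ℕ) : 𝓞 K) * N = N := by
      push_cast
      linear_combination h0
    rw [h5]
    exact_mod_cast hN.ne'
  · exact ⟨k0, fun φ => hk0 k0 le_rfl φ, h0⟩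

theorem cop_of_sub_one {D : Ideal (𝓞 K)} {x : 𝓞 K} (h : x - 1 ∈ D) :
    IsCoprime (Ideal.span {x}) D := by
  rw [Ideal.isCoprime_iff_exists]
  refine ⟨x, Ideal.mem_span_singleton_self x, 1 - x, ?_, by ring⟩
  have : 1 - x = -(x - 1) := by ring
  rw [this]
  exact D.neg_mem h

/-- The main lemma: an ideal prime to `D ∣ m` times an ideal prime to `m` is a principal ideal
generated by an element of the ray modulo `D`. -/
theorem exists_ray_cof (m D : II K) (hD : (D : Ideal (𝓞 K)) ∣ (m : Ideal (𝓞 K)))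
    (I : II K) (hI : IsCoprime (I : Ideal (𝓞 K)) (D : Ideal (𝓞 K))) :
    ∃ (J : II K) (x : 𝓞 K), IsCoprime (J : Ideal (𝓞 K)) (m : Ideal (𝓞 K)) ∧ x ≠ 0 ∧
      x - 1 ∈ (D : Ideal (𝓞 K)) ∧ TotPos K x ∧ (I : Ideal (𝓞 K)) * J = Ideal.span {x} := by
  obtain ⟨d, Q, hmQ, hQD, hd⟩ := cop_split K D m
  obtain ⟨J0, hJ0c, hJ0⟩ := exists_coprime_class Q (ClassGroup.mk0 I)⁻¹
  have hI0 : (I : Ideal (𝓞 K)) ≠ 0 := nonZeroDivisors.coe_ne_zero I
  obtain ⟨g, hg⟩ : ∃ g : 𝓞 K, (I : Ideal (𝓞 K)) * J0 = Ideal.span {g} := by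
    have h1 : ClassGroup.mk0 (I * J0) = 1 := by rw [map_mul, hJ0c, mul_inv_cancel]
    obtain ⟨g, hg⟩ := (ClassGroup.mk0_eq_one_iff (I * J0).2).1 h1
    exact ⟨g, hg⟩
  -- CRT
  have hcop : IsCoprime ((Q : Ideal (𝓞 K)) * (I : Ideal (𝓞 K))) (D : Ideal (𝓞 K)) :=
    IsCoprime.mul_left hQD hI
  obtain ⟨a, ha, b, hb, hab⟩ := Ideal.isCoprime_iff_exists.1 hcop
  set N : ℕ := Ideal.absNorm ((Q : Ideal (𝓞 K)) * (I : Ideal (𝓞 K)) * (D : Ideal (𝓞 K))) with hN
  have hN0 : 0 < N := by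
    rw [hN, Nat.pos_iff_ne_zero, Ne, Ideal.absNorm_eq_zero_iff]
    exact mul_ne_zero (mul_ne_zero (nonZeroDivisors.coe_ne_zero Q) hI0)
      (nonZeroDivisors.coe_ne_zero D)
  obtain ⟨k, hk1, hk2⟩ := exists_totPos hN0 (g * b + a)
  set x : 𝓞 K := g * b + a + (k : 𝓞 K) * N with hx
  have hNmem : (N : 𝓞 K) ∈ (Q : Ideal (𝓞 K)) * (I : Ideal (𝓞 K)) * (D : Ideal (𝓞 K)) :=
    Ideal.absNorm_mem _
  have hNQI : (N : 𝓞 K) ∈ (Q : Ideal (𝓞 K)) * (I : Ideal (𝓞 K)) := Ideal.mul_le_left hNmem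
  have hND : (N : 𝓞 K) ∈ (D : Ideal (𝓞 K)) := Ideal.mul_le_right hNmem
  have hxD : x - 1 ∈ (D : Ideal (𝓞 K)) := by
    have h1 : x - 1 = (g - 1) * b + k * N := by
      rw [hx]
      linear_combination hab
    rw [h1]
    exact Ideal.add_mem _ (Ideal.mul_mem_left _ _ hb) (Ideal.mul_mem_left _ _ hND)
  have hxg : x - g ∈ (Q : Ideal (𝓞 K)) * (I : Ideal (𝓞 K)) := by
    have h1 : x - g = (1 - g) * a + k * N := by
      rw [hx]
      linear_combination g * hab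
    rw [h1]
    exact Ideal.add_mem _ (Ideal.mul_mem_left _ _ ha) (Ideal.mul_mem_left _ _ hNQI)
  have hgI : g ∈ (I : Ideal (𝓞 K)) := by
    have : g ∈ (I : Ideal (𝓞 K)) * (J0 : Ideal (𝓞 K)) := by
      rw [hg]
      exact Ideal.mem_span_singleton_self g
    exact Ideal.mul_le_left this
  have hxI : x ∈ (I : Ideal (𝓞 K)) := by
    have h1 : x = (x - g) + g := by ring
    rw [h1]
    exact Ideal.add_mem _ (Ideal.mul_le_right hxg) hgI
  obtain ⟨J, hJ⟩ := FuncEqAux.exists_cofactor (I : Ideal (𝓞 K)) hxI hk2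
  have hsup : Ideal.span {x} ⊔ (Q : Ideal (𝓞 K)) * (I : Ideal (𝓞 K)) =
      Ideal.span {g} ⊔ (Q : Ideal (𝓞 K)) * (I : Ideal (𝓞 K)) := by
    apply le_antisymm
    · refine sup_le ?_ le_sup_right
      rw [Ideal.span_singleton_le_iff_mem]
      have h1 : x = g + (x - g) := by ring
      rw [h1]
      exact Ideal.add_mem _ (Ideal.mem_sup_left (Ideal.mem_span_singleton_self g))
        (Ideal.mem_sup_right hxg)
    · refine sup_le ?_ le_sup_right
      rw [Ideal.span_singleton_le_iff_mem]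
      have h1 : g = x - (x - g) := by ring
      rw [h1]
      exact Ideal.sub_mem _ (Ideal.mem_sup_left (Ideal.mem_span_singleton_self x))
        (Ideal.mem_sup_right hxg)
  have hJQ : IsCoprime (J : Ideal (𝓞 K)) (Q : Ideal (𝓞 K)) := by
    rw [Ideal.isCoprime_iff_sup_eq]
    have h1 : ((J : Ideal (𝓞 K)) ⊔ (Q : Ideal (𝓞 K))) * (I : Ideal (𝓞 K)) =
        1 * (I : Ideal (𝓞 K)) := by
      rw [Ideal.sup_mul, hJ, hsup, ← hg, mul_comm (I : Ideal (𝓞 K)) (J0 : Ideal (𝓞 K)),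
        ← Ideal.sup_mul, Ideal.isCoprime_iff_sup_eq.1 hJ0, ← Ideal.one_eq_top]
    rw [mul_right_cancel₀ hI0 h1, Ideal.one_eq_top]
  have hJD : IsCoprime (J : Ideal (𝓞 K)) (D : Ideal (𝓞 K)) := by
    have h1 := cop_of_sub_one hxD
    rw [← hJ] at h1
    exact (IsCoprime.mul_left_iff.1 h1).1
  refine ⟨J, x, ?_, hk2, hxD, hk1, by rw [mul_comm, hJ]⟩
  rw [hmQ, Submonoid.coe_mul]
  refine IsCoprime.mul_right ?_ hJQ
  rw [cop_iff] at hJD ⊢
  intro P hP hPJ hPd
  exact hJD P hP hPJ (hd P hP hPd)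

/-- `χ` is trivial on the ray modulo `D`. -/
def TrivOn (m : Ideal (𝓞 K)) (χ : Ideal (𝓞 K) → ℂ) (D : Ideal (𝓞 K)) : Prop :=
  ∀ x : 𝓞 K, x ≠ 0 → x - 1 ∈ D → TotPos K x → IsCoprime (Ideal.span {x}) m →
    χ (Ideal.span {x}) = 1

/-- The value of the induced character does not depend on the choices. -/
theorem triv_unique {m D : II K} {χ : Ideal (𝓞 K) → ℂ}
    (h : IsRayClassChar K (m : Ideal (𝓞 K)) χ) (hD : (D : Ideal (𝓞 K)) ∣ (m : Ideal (𝓞 K)))
    (ht : TrivOn (m : Ideal (𝓞 K)) χ D) {I J J' : II K} {x x' : 𝓞 K}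
    (hJ : IsCoprime (J : Ideal (𝓞 K)) (m : Ideal (𝓞 K)))
    (hJ' : IsCoprime (J' : Ideal (𝓞 K)) (m : Ideal (𝓞 K)))
    (hx0 : x ≠ 0) (hx0' : x' ≠ 0)
    (hx : x - 1 ∈ (D : Ideal (𝓞 K))) (hx' : x' - 1 ∈ (D : Ideal (𝓞 K)))
    (hp : TotPos K x) (hp' : TotPos K x')
    (he : (I : Ideal (𝓞 K)) * (J : Ideal (𝓞 K)) = Ideal.span {x})
    (he' : (I : Ideal (𝓞 K)) * (J' : Ideal (𝓞 K)) = Ideal.span {x'}) :
    χ J = χ J' := by
  have hJD : IsCoprime (J : Ideal (𝓞 K)) (D : Ideal (𝓞 K)) := hJ.of_isCoprime_of_dvd_right hD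
  obtain ⟨L, y, hL, hy0, hy, hyp, hJL⟩ := exists_ray_cof m D hD J hJD
  -- `(x) J' L = (x' y)`
  have e1 : Ideal.span {x} * ((J' : Ideal (𝓞 K)) * (L : Ideal (𝓞 K))) = Ideal.span {x' * y} := by
    rw [← Ideal.span_singleton_mul_span_singleton, ← he, ← he', ← hJL]
    ring
  obtain ⟨z, hz⟩ : ∃ z, x' * y = x * z := by
    have h1 : x' * y ∈ Ideal.span {x} := by
      have h2 : x' * y ∈ Ideal.span {x} * ((J' : Ideal (𝓞 K)) * (L : Ideal (𝓞 K))) := by
        rw [e1]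
        exact Ideal.mem_span_singleton_self _
      exact Ideal.mul_le_left h2
    obtain ⟨z, hz⟩ := Ideal.mem_span_singleton'.1 h1
    exact ⟨z, by rw [← hz]; ring⟩
  have hz0 : z ≠ 0 := by
    rintro rfl
    rw [mul_zero] at hz
    exact mul_ne_zero hx0' hy0 hz
  have e2 : (J' : Ideal (𝓞 K)) * (L : Ideal (𝓞 K)) = Ideal.span {z} := by
    have hsx : Ideal.span {x} ≠ (0 : Ideal (𝓞 K)) := by
      rw [Ne, Ideal.zero_eq_bot, Ideal.span_singleton_eq_bot]
      exact hx0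
    apply mul_left_cancel₀ hsx
    rw [e1, hz, Ideal.span_singleton_mul_span_singleton]
  have hzD : z - 1 ∈ (D : Ideal (𝓞 K)) := by
    have h1 : z - 1 = x' * (y - 1) + (x' - 1) - (x - 1) * z := by
      linear_combination -hz
    rw [h1]
    exact Ideal.sub_mem _ (Ideal.add_mem _ (Ideal.mul_mem_left _ _ hy) hx')
      (Ideal.mul_mem_right _ _ hx)
  have hzp : TotPos K z := by
    intro φ
    have h0 : (x' : K) * (y : K) = (x : K) * (z : K) := by
      have h3 := congrArg (algebraMap (𝓞 K) K) hz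
      rwa [map_mul, map_mul] at h3
    have h1 : φ (x' : K) * φ (y : K) = φ (x : K) * φ (z : K) := by
      rw [← map_mul φ, ← map_mul φ, h0]
    have h2 := mul_pos (hp' φ) (hyp φ)
    rw [h1] at h2
    exact (pos_iff_pos_of_mul_pos h2).1 (hp φ)
  have c1 : χ (Ideal.span {z}) = 1 := by
    apply ht z hz0 hzD hzp
    rw [← e2]
    exact IsCoprime.mul_left hJ' hL
  have c2 : χ (Ideal.span {y}) = 1 := by
    apply ht y hy0 hy hyp
    rw [← hJL]
    exact IsCoprime.mul_left hJ hL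
  rw [← e2, h.map_mul] at c1
  rw [← hJL, h.map_mul] at c2
  have hL0 : χ (L : Ideal (𝓞 K)) ≠ 0 := by
    intro h0
    rw [h0, mul_zero] at c1
    exact zero_ne_one c1
  exact mul_right_cancel₀ hL0 (c2.trans c1.symm)

/-- Every ray class character is induced by a primitive one. -/
theorem exists_prim (m : II K) (χ : Ideal (𝓞 K) → ℂ)
    (h : IsRayClassChar K (m : Ideal (𝓞 K)) χ) :
    ∃ (D : II K) (χ' : Ideal (𝓞 K) → ℂ), (D : Ideal (𝓞 K)) ∣ (m : Ideal (𝓞 K)) ∧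
      IsRayClassChar K (D : Ideal (𝓞 K)) χ' ∧ IsPrim K (D : Ideal (𝓞 K)) χ' ∧
      ∀ I : Ideal (𝓞 K), IsCoprime I (m : Ideal (𝓞 K)) → χ' I = χ I := by
  classical
  -- the minimal ideal
  obtain ⟨D, ⟨hDm, hDt⟩, hmin⟩ : ∃ D : II K, ((D : Ideal (𝓞 K)) ∣ (m : Ideal (𝓞 K)) ∧
      TrivOn (m : Ideal (𝓞 K)) χ D) ∧ ∀ D' : II K, ((D' : Ideal (𝓞 K)) ∣ (m : Ideal (𝓞 K)) ∧
      TrivOn (m : Ideal (𝓞 K)) χ D') → Ideal.absNorm (D : Ideal (𝓞 K)) ≤
        Ideal.absNorm (D' : Ideal (𝓞 K)) := by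
    have hex : ∃ n : ℕ, ∃ D : II K, ((D : Ideal (𝓞 K)) ∣ (m : Ideal (𝓞 K)) ∧
        TrivOn (m : Ideal (𝓞 K)) χ D) ∧ Ideal.absNorm (D : Ideal (𝓞 K)) = n :=
      ⟨_, m, ⟨dvd_rfl, fun x hx0 hx hp _ => h.map_ray x hx0 hx hp⟩, rfl⟩
    obtain ⟨D, hD, hn⟩ := Nat.find_spec hex
    refine ⟨D, hD, fun D' hD' => ?_⟩
    rw [hn]
    exact Nat.find_min' hex ⟨D', hD', rfl⟩
  have hcof : ∀ I : II K, IsCoprime (I : Ideal (𝓞 K)) (D : Ideal (𝓞 K)) →
      ∃ J : II K, ∃ x : 𝓞 K, IsCoprime (J : Ideal (𝓞 K)) (m : Ideal (𝓞 K)) ∧ x ≠ 0 ∧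
      x - 1 ∈ (D : Ideal (𝓞 K)) ∧ TotPos K x ∧ (I : Ideal (𝓞 K)) * J = Ideal.span {x} :=
    fun I hI => exists_ray_cof m D hDm I hI
  choose! J X hJ hX0 hX hXp hJX using hcof
  set χ' : Ideal (𝓞 K) → ℂ := fun I =>
    if hI : I ≠ ⊥ then
      (if IsCoprime I (D : Ideal (𝓞 K)) then
        (χ (J ⟨I, mem_nonZeroDivisors_of_ne_zero hI⟩ : Ideal (𝓞 K)))⁻¹ else 0)
    else 0 with hχ'
  have hval0 : ∀ I : II K, IsCoprime (I : Ideal (𝓞 K)) (D : Ideal (𝓞 K)) →
      χ' I = (χ (J I : Ideal (𝓞 K)))⁻¹ := by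
    intro I hI
    rw [hχ']
    simp only
    have h0 : (I : Ideal (𝓞 K)) ≠ ⊥ := nonZeroDivisors.coe_ne_zero I
    rw [dif_pos h0, if_pos hI]
  have key : ∀ I : II K, IsCoprime (I : Ideal (𝓞 K)) (D : Ideal (𝓞 K)) → ∀ (L : II K) (x : 𝓞 K),
      IsCoprime (L : Ideal (𝓞 K)) (m : Ideal (𝓞 K)) → x ≠ 0 → x - 1 ∈ (D : Ideal (𝓞 K)) →
      TotPos K x → (I : Ideal (𝓞 K)) * L = Ideal.span {x} → χ' I = (χ (L : Ideal (𝓞 K)))⁻¹ := by
    intro I hI L x hL hx0 hx hp he
    rw [hval0 I hI, triv_unique h hDm hDt (hJ I hI) hL (hX0 I hI) hx0 (hX I hI) hx (hXp I hI) hp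
      (hJX I hI) he]
  have hne : ∀ L : II K, IsCoprime (L : Ideal (𝓞 K)) (m : Ideal (𝓞 K)) →
      χ (L : Ideal (𝓞 K)) ≠ 0 := fun L hL =>
    (h.ne_zero_iff _).2 ⟨nonZeroDivisors.coe_ne_zero L, hL⟩
  have hone : TotPos K (1 : 𝓞 K) := by
    intro φ
    simp
  have hagree : ∀ I : Ideal (𝓞 K), IsCoprime I (m : Ideal (𝓞 K)) → χ' I = χ I := by
    intro I hI
    by_cases hI0 : I = ⊥
    · have h1 : χ I = 0 := by
        by_contra h2
        exact ((h.ne_zero_iff I).1 h2).1 hI0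
      rw [h1, hχ']
      simp only
      rw [dif_neg (not_not.2 hI0)]
    · set I' : II K := ⟨I, mem_nonZeroDivisors_of_ne_zero hI0⟩ with hI'
      have hID : IsCoprime (I' : Ideal (𝓞 K)) (D : Ideal (𝓞 K)) :=
        IsCoprime.of_isCoprime_of_dvd_right hI hDm
      have h1 : χ' I = χ' I' := rfl
      rw [h1, hval0 I' hID]
      have h2 : χ (Ideal.span {X I'}) = 1 := by
        apply hDt _ (hX0 I' hID) (hX I' hID) (hXp I' hID)
        rw [← hJX I' hID]
        exact IsCoprime.mul_left hI (hJ I' hID)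
      rw [← hJX I' hID, h.map_mul] at h2
      exact (eq_inv_of_mul_eq_one_left h2).symm
  refine ⟨D, χ', hDm, ⟨?_, ?_, ?_, ?_⟩, ?_, hagree⟩
  · rw [hagree 1 isCoprime_one_left, h.map_one]
  · intro I I'
    by_cases hI0 : I = ⊥
    · subst hI0
      have h1 : χ' ⊥ = 0 := by
        rw [hχ']
        simp
      rw [Ideal.bot_mul, h1, zero_mul]
    by_cases hI0' : I' = ⊥
    · subst hI0'
      have h1 : χ' ⊥ = 0 := by
        rw [hχ']
        simp
      rw [Ideal.mul_bot, h1, mul_zero]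
    by_cases hc : IsCoprime I (D : Ideal (𝓞 K)) ∧ IsCoprime I' (D : Ideal (𝓞 K))
    · set I₁ : II K := ⟨I, mem_nonZeroDivisors_of_ne_zero hI0⟩ with hI₁
      set I₂ : II K := ⟨I', mem_nonZeroDivisors_of_ne_zero hI0'⟩ with hI₂
      have h1 := hval0 I₁ hc.1
      have h2 := hval0 I₂ hc.2
      have h3 := key (I₁ * I₂) (by rw [Submonoid.coe_mul]; exact IsCoprime.mul_left hc.1 hc.2)
        (J I₁ * J I₂) (X I₁ * X I₂)
        (by rw [Submonoid.coe_mul]; exact IsCoprime.mul_left (hJ I₁ hc.1) (hJ I₂ hc.2))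
        (mul_ne_zero (hX0 I₁ hc.1) (hX0 I₂ hc.2))
        (by
          have e : X I₁ * X I₂ - 1 = X I₁ * (X I₂ - 1) + (X I₁ - 1) := by ring
          rw [e]
          exact Ideal.add_mem _ (Ideal.mul_mem_left _ _ (hX I₂ hc.2)) (hX I₁ hc.1))
        (by
          intro φ
          have e : ((X I₁ * X I₂ : 𝓞 K) : K) = (X I₁ : K) * (X I₂ : K) := by push_cast; rfl
          rw [e, map_mul]
          exact mul_pos (hXp I₁ hc.1 φ) (hXp I₂ hc.2 φ))
        (by
          rw [Submonoid.coe_mul, Submonoid.coe_mul, ← Ideal.span_singleton_mul_span_singleton,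
            ← hJX I₁ hc.1, ← hJX I₂ hc.2]
          ring)
      rw [Submonoid.coe_mul, Submonoid.coe_mul, h.map_mul, mul_inv] at h3
      change χ' I = _ at h1
      change χ' I' = _ at h2
      change χ' (I * I') = _ at h3
      rw [h1, h2, h3]
    · have h1 : χ' (I * I') = 0 := by
        rw [hχ']
        simp only
        split_ifs with h2 h3
        · exact absurd (IsCoprime.mul_left_iff.1 h3) hc
        · rfl
        · rfl
      rw [h1]
      rw [not_and_or] at hc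
      rcases hc with hc | hc
      · have h2 : χ' I = 0 := by
          rw [hχ']
          simp only
          split_ifs with h3
          · rfl
          · rfl
        rw [h2, zero_mul]
      · have h2 : χ' I' = 0 := by
          rw [hχ']
          simp only
          split_ifs with h3
          · rfl
          · rfl
        rw [h2, mul_zero]
  · intro I
    constructor
    · intro h0
      rw [hχ'] at h0
      simp only at h0
      split_ifs at h0 with h2 h3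
      · exact ⟨h2, h3⟩
      · exact absurd rfl h0
      · exact absurd rfl h0
    · rintro ⟨h2, h3⟩
      set I' : II K := ⟨I, mem_nonZeroDivisors_of_ne_zero h2⟩ with hI'
      have h4 : χ' I = (χ (J I' : Ideal (𝓞 K)))⁻¹ := hval0 I' h3
      rw [h4]
      exact inv_ne_zero (hne _ (hJ I' h3))
  · intro x hx0 hx hp
    have hs0 : Ideal.span {x} ≠ (⊥ : Ideal (𝓞 K)) := by
      rw [Ne, Ideal.span_singleton_eq_bot]
      exact hx0
    set I' : II K := ⟨Ideal.span {x}, mem_nonZeroDivisors_of_ne_zero hs0⟩ with hI'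
    have hc : IsCoprime (I' : Ideal (𝓞 K)) (D : Ideal (𝓞 K)) := cop_of_sub_one hx
    have h1 : χ' (Ideal.span {x}) = (χ (J I' : Ideal (𝓞 K)))⁻¹ := hval0 I' hc
    rw [h1]
    have h2 := hJX I' hc
    change Ideal.span {x} * (J I' : Ideal (𝓞 K)) = _ at h2
    obtain ⟨z, hz⟩ : ∃ z, X I' = x * z := by
      have h3 : X I' ∈ Ideal.span {x} := by
        have h4 : X I' ∈ Ideal.span {x} * (J I' : Ideal (𝓞 K)) := by
          rw [h2]
          exact Ideal.mem_span_singleton_self _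
        exact Ideal.mul_le_left h4
      obtain ⟨z, hz⟩ := Ideal.mem_span_singleton'.1 h3
      exact ⟨z, by rw [← hz]; ring⟩
    have hz0 : z ≠ 0 := by
      rintro rfl
      rw [mul_zero] at hz
      exact hX0 I' hc hz
    have e2 : (J I' : Ideal (𝓞 K)) = Ideal.span {z} := by
      apply mul_left_cancel₀ hs0
      rw [h2, hz, Ideal.span_singleton_mul_span_singleton]
    have h3 : χ (J I' : Ideal (𝓞 K)) = 1 := by
      rw [e2]
      apply hDt z hz0
      · have h4 : z - 1 = (X I' - 1) - (x - 1) * z := by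
          linear_combination -hz
        rw [h4]
        exact Ideal.sub_mem _ (hX I' hc) (Ideal.mul_mem_right _ _ hx)
      · intro φ
        have h0 : (X I' : K) = (x : K) * (z : K) := by
          have h3 := congrArg (algebraMap (𝓞 K) K) hz
          rwa [map_mul] at h3
        have h4 : φ (X I' : K) = φ (x : K) * φ (z : K) := by
          rw [← map_mul φ, h0]
        have h5 := hXp I' hc φ
        rw [h4] at h5
        exact (pos_iff_pos_of_mul_pos h5).1 (hp φ)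
      · rw [← e2]
        exact hJ I' hc
    rw [h3, inv_one]
  · intro D' hD' hne'
    have hD'0 : D' ≠ ⊥ := by
      rintro rfl
      have h1 : (D : Ideal (𝓞 K)) = ⊥ := zero_dvd_iff.1 (by rw [Ideal.zero_eq_bot]; exact hD')
      exact nonZeroDivisors.coe_ne_zero D h1
    set D₁ : II K := ⟨D', mem_nonZeroDivisors_of_ne_zero hD'0⟩ with hD₁
    have h1 : ¬ TrivOn (m : Ideal (𝓞 K)) χ D' := by
      intro ht
      have h2 := hmin D₁ ⟨hD'.trans hDm, ht⟩
      obtain ⟨E, hE⟩ := hD'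
      have h3 : Ideal.absNorm (D : Ideal (𝓞 K)) = Ideal.absNorm D' * Ideal.absNorm E := by
        rw [hE, map_mul]
      have hE1 : Ideal.absNorm E ≠ 1 := by
        intro h4
        rw [Ideal.absNorm_eq_one_iff] at h4
        apply hne'
        rw [hE, h4, ← Ideal.one_eq_top, mul_one]
      have hE0 : Ideal.absNorm E ≠ 0 := by
        intro h4
        rw [Ideal.absNorm_eq_zero_iff] at h4
        apply nonZeroDivisors.coe_ne_zero D
        rw [hE, h4, Ideal.mul_bot, Ideal.zero_eq_bot]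
      have hD'n : 0 < Ideal.absNorm D' := by
        rw [Nat.pos_iff_ne_zero, Ne, Ideal.absNorm_eq_zero_iff]
        exact hD'0
      have h5 : 2 ≤ Ideal.absNorm E := by omega
      change Ideal.absNorm (D : Ideal (𝓞 K)) ≤ Ideal.absNorm D' at h2
      rw [h3] at h2
      nlinarith
    unfold TrivOn at h1
    push Not at h1
    obtain ⟨x, hx0, hx, hp, hc, hχx⟩ := h1
    refine ⟨x, hx0, hx, hp, ?_, ?_⟩
    · rw [hagree _ hc, h.ne_zero_iff]
      refine ⟨?_, hc⟩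
      rw [Ne, Ideal.span_singleton_eq_bot]
      exact hx0
    · rw [hagree _ hc]
      exact hχx

end Pool.NVR
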