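import Pool.Agent.NVR.ZetaE
import Pool.Agent.CMZ.Mult

/-!
# `L(1, χ) ≠ 0` for real characters
-/

open scoped NumberField nonZeroDivisors ComplexOrder
open NumberField Pool.ZD Pool.Agent.CMZ Pool.Agent.CMZ.MultAux Pool.HRC

namespace Pool.NVR

variable {K : Type} [Field K] [NumberField K]

theorem hasSum_fiber {α β : Type*} (g : α → β) {F : α → ℂ} {Z : ℂ} {G : β → ℂ} (h : HasSum F Z)
    (hG : ∀ b, HasSum (fun c : {a // g a = b} => F c.1) (G b)) : HasSum G Z :=
  ((Equiv.hasSum_iff (Equiv.sigmaFiberEquiv g)).2 h).sigma hG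

/-- The ideals of norm `n`. -/
abbrev Fib (K : Type) [Field K] [NumberField K] (n : ℕ) : Type :=
  {I : II K // Ideal.absNorm (I : Ideal (𝓞 K)) = n}

instance fib_finite (n : ℕ) : Finite (Fib K n) := by
  have h1 : Finite {I : Ideal (𝓞 K) // Ideal.absNorm I = n} :=
    (Ideal.finite_setOfPred_absNorm_eq n).to_subtype
  refine Finite.of_injective (fun I : Fib K n =>
    (⟨(I.1 : Ideal (𝓞 K)), I.2⟩ : {I : Ideal (𝓞 K) // Ideal.absNorm I = n})) ?_
  intro I J h
  have h2 := congrArg Subtype.val h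
  exact Subtype.ext (Subtype.ext h2)

/-- The coefficients of the Dirichlet series. -/
noncomputable def acf (f : II K → ℂ) (n : ℕ) : ℂ := ∑' I : Fib K n, f I.1

theorem regroup (f : II K → ℂ) {s Z : ℂ}
    (h : HasSum (fun I : II K => f I * (nm K I : ℂ) ^ (-s)) Z) :
    HasSum (fun n : ℕ => LSeries.term (acf f) s n) Z := by
  refine hasSum_fiber (fun I : II K => Ideal.absNorm (I : Ideal (𝓞 K))) h fun n => ?_
  have : Fintype (Fib K n) := Fintype.ofFinite _
  have h2 : LSeries.term (acf f) s n = ∑ I : Fib K n, f I.1 * (nm K I.1 : ℂ) ^ (-s) := by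
    rcases Nat.eq_zero_or_pos n with rfl | hn
    · rw [LSeries.term_zero]
      symm
      apply Finset.sum_eq_zero
      intro I _
      exfalso
      have h3 := I.2
      rw [Ideal.absNorm_eq_zero_iff] at h3
      exact nonZeroDivisors.coe_ne_zero I.1 h3
    · rw [LSeries.term_of_ne_zero hn.ne', acf, tsum_fintype, Finset.sum_div]
      refine Finset.sum_congr rfl fun I _ => ?_
      have h3 : nm K I.1 = (n : ℝ) := by
        unfold nm
        rw [I.2]
      rw [h3, Complex.ofReal_natCast, Complex.cpow_neg, div_eq_mul_inv]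
  rw [h2]
  exact hasSum_fintype _

/-- The divisor sum of a real character. -/
noncomputable def rdiv (ρ : II K → ℝ) (M : II K) : ℝ := ∑ q ∈ dp K M, ρ q.2

theorem rdiv_nonneg {ρ : II K → ℝ} (h1 : ρ 1 = 1) (hm : ∀ I J, ρ (I * J) = ρ I * ρ J)
    (hb : ∀ I, |ρ I| ≤ 1) (M : II K) : 0 ≤ rdiv ρ M := by
  classical
  -- the value at a prime
  set g : Ideal (𝓞 K) → ℕ → ℝ := fun P k =>
    if hP : P ≠ 0 then ρ ⟨P, mem_nonZeroDivisors_of_ne_zero hP⟩ ^ k else 1 with hg
  have hmf : ∀ J : II K, mf K g J = ρ J := by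
    intro J
    let ρ' : Ideal (𝓞 K) → ℝ := fun P =>
      if hP : P ≠ 0 then ρ ⟨P, mem_nonZeroDivisors_of_ne_zero hP⟩ else 1
    have hs : ∀ s : Multiset (Ideal (𝓞 K)), (∀ P ∈ s, P ≠ 0) →
        ρ' s.prod = (s.map ρ').prod := by
      intro s
      induction s using Multiset.induction_on with
      | empty =>
        intro _
        simp only [Multiset.prod_zero, Multiset.map_zero]
        show (if hP : (1 : Ideal (𝓞 K)) ≠ 0 then _ else _) = _
        rw [dif_pos one_ne_zero]
        exact h1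
      | cons P s ih =>
        intro h
        have hP : P ≠ 0 := h P (Multiset.mem_cons_self _ _)
        have hs' : ∀ Q ∈ s, Q ≠ 0 := fun Q hQ => h Q (Multiset.mem_cons_of_mem hQ)
        have hsp : s.prod ≠ 0 := by
          intro h0
          exact hs' 0 (Multiset.prod_eq_zero_iff.1 h0) rfl
        rw [Multiset.prod_cons, Multiset.map_cons, Multiset.prod_cons, ← ih hs']
        show (if hP : P * s.prod ≠ 0 then _ else _) =
          (if hP : P ≠ 0 then _ else _) * (if hP : s.prod ≠ 0 then _ else _)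
        rw [dif_pos (mul_ne_zero hP hsp), dif_pos hP, dif_pos hsp, ← hm]
        rfl
    have h2 := hs (UniqueFactorizationMonoid.normalizedFactors (J : Ideal (𝓞 K)))
      (fun P hP => (prime_of_mem hP).ne_zero)
    rw [prod_eq] at h2
    have h3 : ρ' (J : Ideal (𝓞 K)) = ρ J := by
      show (if hP : (J : Ideal (𝓞 K)) ≠ 0 then _ else _) = _
      rw [dif_pos (nonZeroDivisors.coe_ne_zero J)]
    rw [← h3, h2, Finset.prod_multiset_map_count]
    unfold mf
    refine Finset.prod_congr rfl fun P hP => ?_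
    have hP0 : P ≠ 0 := (prime_of_mem (Multiset.mem_toFinset.1 hP)).ne_zero
    show (if hP : P ≠ 0 then _ else _) = (if hP : P ≠ 0 then _ else _) ^ _
    rw [dif_pos hP0, dif_pos hP0]
  have h2 := mf_conv K (fun _ _ => 1) g (fun _ => rfl) (fun P => by
    rw [hg]
    simp only
    split_ifs
    · rw [pow_zero]
    · rfl) M
  have h3 : rdiv ρ M = ∑ q ∈ dp K M, mf K (fun _ _ => 1) q.1 * mf K g q.2 := by
    unfold rdiv
    refine Finset.sum_congr rfl fun q _ => ?_
    have h4 : mf K (fun _ _ => (1 : ℝ)) q.1 = 1 := by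
      unfold mf
      simp
    rw [hmf, h4, one_mul]
  rw [h3, h2]
  apply mf_nonneg
  intro P hP k _
  have hP0 : P ≠ 0 := hP.ne_zero
  have h5 : ∀ ij ∈ Finset.HasAntidiagonal.antidiagonal k, (1 : ℝ) * g P ij.2 =
      ρ ⟨P, mem_nonZeroDivisors_of_ne_zero hP0⟩ ^ ij.2 := by
    intro ij _
    rw [hg, one_mul]
    simp only
    rw [dif_pos hP0]
  rw [Finset.sum_congr rfl h5]
  have hε := hb ⟨P, mem_nonZeroDivisors_of_ne_zero hP0⟩
  generalize ρ ⟨P, mem_nonZeroDivisors_of_ne_zero hP0⟩ = ε at *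
  rw [Finset.Nat.sum_antidiagonal_eq_sum_range_succ (fun _ j => ε ^ j) k,
    Finset.sum_flip (fun j => ε ^ j)]
  rw [abs_le] at hε
  rcases eq_or_lt_of_le hε.2 with h6 | h6
  · rw [h6]
    simp
    positivity
  · have h7 := geom_sum_mul ε (k + 1)
    have h8 : ε ^ (k + 1) ≤ 1 := by
      have h9 : |ε ^ (k + 1)| ≤ 1 := by
        rw [abs_pow]
        exact pow_le_one₀ (abs_nonneg _) (abs_le.2 hε)
      exact (abs_le.1 h9).2
    by_contra h10
    push Not at h10
    have := mul_pos_of_neg_of_neg h10 (by linarith : ε - 1 < 0)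
    linarith

variable {m : II K} {χ : II K → ℂ} {S : Finset (RP K)} {f : 𝓞 K → ℂ}

/-- `ζ_K(s) L(s, χ)` as a Dirichlet series over the ideals. -/
theorem hasSum_prod (h : HC K m χ S f) (hr : ∀ I, (χ I).im = 0) {s Z : ℂ} (hs : 1 < s.re)
    (hZ : HasSum (fun I : II K => (nm K I : ℂ) ^ (-s)) Z) :
    HasSum (fun M : II K => ((rdiv (fun I => (χ I).re) M : ℝ) : ℂ) * (nm K M : ℂ) ^ (-s))
      (Z * LX K m χ S s) := by
  classical
  have hL := LX_hasSum h hs
  have hn1 : Summable fun I : II K => ‖(nm K I : ℂ) ^ (-s)‖ := by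
    have h1 := series_summable (HC_triv K) hs
    simpa using h1
  have hn2 := series_summable h hs
  have hsm : Summable fun x : II K × II K =>
      (fun I : II K => (nm K I : ℂ) ^ (-s)) x.1 * (fun I : II K => χ I * (nm K I : ℂ) ^ (-s)) x.2 :=
    summable_mul_of_summable_norm (f := fun I : II K => (nm K I : ℂ) ^ (-s))
      (g := fun I : II K => χ I * (nm K I : ℂ) ^ (-s)) hn1 hn2
  have hp := HasSum.mul (f := fun I : II K => (nm K I : ℂ) ^ (-s))
      (g := fun I : II K => χ I * (nm K I : ℂ) ^ (-s)) hZ hL hsm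
  refine hasSum_fiber (fun x : II K × II K => x.1 * x.2) hp fun M => ?_
  have hre : ∀ I, χ I = (((χ I).re : ℝ) : ℂ) := fun I => by
    apply Complex.ext
    · simp
    · rw [hr I]
      simp
  have h2 := Finset.hasSum (dp K M) (fun q : II K × II K => (χ q.2) * (nm K M : ℂ) ^ (-s))
  have h3 : ∑ q ∈ dp K M, (χ q.2) * (nm K M : ℂ) ^ (-s) =
      ((rdiv (fun I => (χ I).re) M : ℝ) : ℂ) * (nm K M : ℂ) ^ (-s) := by
    rw [← Finset.sum_mul]
    congr 1
    unfold rdiv
    rw [Complex.ofReal_sum]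
    exact Finset.sum_congr rfl fun q _ => hre q.2
  rw [h3] at h2
  have h4 := (Equiv.hasSum_iff (Equiv.subtypeEquivRight
    (p := fun x : II K × II K => x.1 * x.2 = M) (q := fun x => x ∈ dp K M)
    fun x => mem_dp.symm)).2 h2
  convert h4 using 1
  funext x
  have h5 : nm K M = nm K x.1.1 * nm K x.1.2 := by
    have h6 : x.1.1 * x.1.2 = M := x.2
    rw [← nmul, h6]
  show (nm K x.1.1 : ℂ) ^ (-s) * (χ x.1.2 * (nm K x.1.2 : ℂ) ^ (-s)) =
    χ x.1.2 * (nm K M : ℂ) ^ (-s)
  rw [h5, Complex.ofReal_mul, Complex.mul_cpow_ofReal_nonneg (nm_pos _).le (nm_pos _).le]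
  ring

theorem acf_nonneg {r : II K → ℝ} (h : ∀ I, 0 ≤ r I) : 0 ≤ acf fun I : II K => (r I : ℂ) := by
  intro n
  have : Fintype (Fib K n) := Fintype.ofFinite _
  unfold acf
  rw [tsum_fintype]
  refine Finset.sum_nonneg fun I _ => ?_
  show (0 : ℂ) ≤ ((r I.1 : ℝ) : ℂ)
  exact_mod_cast h I.1

theorem acf_one {r : II K → ℝ} (h : ∀ I, 0 ≤ r I) (h1 : r 1 = 1) :
    0 < acf (fun I : II K => (r I : ℂ)) 1 := by
  have : Fintype (Fib K 1) := Fintype.ofFinite _
  unfold acf
  rw [tsum_fintype]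
  have h2 := Finset.single_le_sum (f := fun I : Fib K 1 => ((r I.1 : ℝ) : ℂ)) (s := Finset.univ)
    (fun I _ => by exact_mod_cast h I.1) (Finset.mem_univ (⟨1, by simp⟩ : Fib K 1))
  refine lt_of_lt_of_le ?_ h2
  show (0 : ℂ) < ((r 1 : ℝ) : ℂ)
  rw [h1]
  exact_mod_cast one_pos

/-- `L(1, χ) ≠ 0` for a nontrivial real primitive character. -/
theorem L1_real (h : HC K m χ S f) (hχ : ∃ I, χ I ≠ 0 ∧ χ I ≠ 1) (hr : ∀ I, (χ I).im = 0) :
    LX K m χ S 1 ≠ 0 := by
  classical
  intro h0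
  obtain ⟨E, hE, hE2, hE1⟩ := exists_E K
  set L := LX K m χ S with hL
  have hLd : Differentiable ℂ L := LX_differentiable h hχ
  set F : ℂ → ℂ := fun s => E s * dslope L 1 s with hF
  have hds : Differentiable ℂ (dslope L 1) := by
    have h1 := (Complex.differentiableOn_dslope (f := L) (s := Set.univ) (c := 1)
      Filter.univ_mem).2 hLd.differentiableOn
    rwa [differentiableOn_univ] at h1
  have hFd : Differentiable ℂ F := hE.mul hds
  set ρ : II K → ℝ := fun I => (χ I).re with hρ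
  have hre : ∀ I, χ I = ((ρ I : ℝ) : ℂ) := fun I => by
    apply Complex.ext
    · simp [hρ]
    · rw [hr I]
      simp
  have hρ1 : ρ 1 = 1 := by
    rw [hρ]
    simp only
    rw [h.one]
    simp
  have hρm : ∀ I J, ρ (I * J) = ρ I * ρ J := by
    intro I J
    have h1 := h.mul I J
    rw [hre I, hre J, hre (I * J)] at h1
    exact_mod_cast h1
  have hρb : ∀ I, |ρ I| ≤ 1 := fun I =>
    (Complex.abs_re_le_norm _).trans (h.chi_norm_le I)
  have hr0 := rdiv_nonneg hρ1 hρm hρb
  have hr1 : rdiv ρ 1 = 1 := by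
    unfold rdiv
    have h1 : dp K 1 = {(1, 1)} := by
      ext q
      rw [mem_dp, Finset.mem_singleton]
      constructor
      · intro h2
        have h3 := congrArg (nm K) h2
        rw [nmul, Pool.Agent.CMZ.none] at h3
        have h4 := nm_one_le (K := K) q.1
        have h5 := nm_one_le (K := K) q.2
        have h6 : nm K q.1 = 1 := by nlinarith
        have h7 : nm K q.2 = 1 := by nlinarith
        exact Prod.ext (nm_eq_one.1 h6) (nm_eq_one.1 h7)
      · rintro rfl
        exact mul_one 1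
    rw [h1, Finset.sum_singleton, hρ1]
  set a : ℕ → ℂ := acf fun I : II K => ((rdiv ρ I : ℝ) : ℂ) with ha
  have hsum : ∀ s : ℂ, 1 < s.re → HasSum (fun n => LSeries.term a s n) (F s) := by
    intro s hs
    obtain ⟨h1, h2⟩ := hE1 s hs
    have h3 := regroup _ (hasSum_prod h hr hs h2)
    have hs1 : s ≠ 1 := fun h4 => by rw [h4] at hs; norm_num at hs
    have h4 : E s / (s - 1) * LX K m χ S s = F s := by
      rw [hF]
      simp only
      rw [dslope_of_ne _ hs1, slope_def_field, h0, sub_zero]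
      ring
    rwa [h4] at h3
  have habs : LSeries.abscissaOfAbsConv a ≤ ((1 : ℝ) : EReal) := by
    refine LSeries.abscissaOfAbsConv_le_of_forall_lt_LSeriesSummable fun y hy => ?_
    exact (hsum y (by simpa using hy)).summable
  have hEq : {s : ℂ | (1 : ℝ) < s.re}.EqOn F (LSeries a) := fun s hs => (hsum s hs).tsum_eq.symm
  have hpos := LSeries.positive_of_differentiable_of_eqOn (acf_nonneg hr0) (acf_one hr0 hr1) hFd
    habs hEq (-2)
  have hF2 : F ((-2 : ℝ) : ℂ) = 0 := by
    rw [hF]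
    simp only
    have : ((-2 : ℝ) : ℂ) = -2 := by norm_num
    rw [this, hE2, zero_mul]
  rw [hF2] at hpos
  exact lt_irrefl _ hpos

end Pool.NVR
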