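import Pool.Agent.NVR.Euler
import Pool.Agent.NVR.Prim
import Pool.Agent.NVR.Real

/-!
# `L(1, χ) ≠ 0` for all ray class characters; prime sums near `s = 1`
-/

open scoped NumberField nonZeroDivisors
open NumberField IsDedekindDomain Filter Topology Pool.ZD Pool.Agent.CMZ Pool.HRC
  Pool.Agent.Lib.Dedekind

namespace Pool.NVR

variable {K : Type} [Field K] [NumberField K]

theorem cop_of_not_dvd (P : HeightOneSpectrum (𝓞 K)) {m : Ideal (𝓞 K)} (h : ¬ P.asIdeal ∣ m) :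
    IsCoprime P.asIdeal m := by
  rw [Ideal.isCoprime_iff_sup_eq]
  by_contra hne
  have h1 : P.asIdeal = P.asIdeal ⊔ m := P.isMaximal.eq_of_le hne le_sup_left
  apply h
  rw [Ideal.dvd_iff_le, h1]
  exact le_sup_right

/-- Characters with the same values at the ideals prime to `m`. -/
theorem PS_compare {χ χ' : Ideal (𝓞 K) → ℂ} (h : CM χ) (h' : CM χ') (m : II K)
    (he : ∀ I : Ideal (𝓞 K), I ≠ ⊥ → IsCoprime I (m : Ideal (𝓞 K)) → χ' I = χ I) :
    ∃ C : ℝ, ∀ s : ℝ, 1 < s → |PS χ' s - PS χ s| ≤ C := by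
  classical
  have hfin : {v : HeightOneSpectrum (𝓞 K) | v.asIdeal ∣ (m : Ideal (𝓞 K))}.Finite :=
    Ideal.finite_factors (nonZeroDivisors.coe_ne_zero m)
  refine ⟨hfin.toFinset.card, fun s hs => ?_⟩
  have h1 : PS χ' s - PS χ s = ∑' P : HeightOneSpectrum (𝓞 K),
      ((wc χ' s P.asIdeal).re - (wc χ s P.asIdeal).re) := by
    unfold PS
    rw [Summable.tsum_sub (summable_PS h' hs) (summable_PS h hs)]
  rw [h1, tsum_eq_sum (s := hfin.toFinset)]
  · refine (Finset.abs_sum_le_sum_abs _ _).trans ?_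
    have h2 : ∀ P ∈ hfin.toFinset,
        |(wc χ' s P.asIdeal).re - (wc χ s P.asIdeal).re| ≤ 1 := by
      intro P _
      have e1 := (Complex.abs_re_le_norm (wc χ' s P.asIdeal)).trans (wc_half h' hs.le P)
      have e2 := (Complex.abs_re_le_norm (wc χ s P.asIdeal)).trans (wc_half h hs.le P)
      rw [abs_le] at *
      constructor <;> linarith [e1.1, e1.2, e2.1, e2.2]
    refine (Finset.sum_le_sum h2).trans ?_
    simp
  · intro P hP
    have h3 : ¬ P.asIdeal ∣ (m : Ideal (𝓞 K)) := fun h4 => hP (hfin.mem_toFinset.2 h4)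
    unfold wc
    rw [he _ P.ne_bot (cop_of_not_dvd P h3), sub_self]

theorem cm_of_HC {D : II K} {χ : Ideal (𝓞 K) → ℂ} {S : Finset (RP K)} {f : 𝓞 K → ℂ}
    (hr : IsRayClassChar K (D : Ideal (𝓞 K)) χ)
    (h : HC K D (fun I => χ (I : Ideal (𝓞 K))) S f) : CM χ where
  one := hr.map_one
  mul := hr.map_mul
  le I := by
    by_cases hI : I = ⊥
    · have h1 : χ I = 0 := by
        by_contra h2
        exact ((hr.ne_zero_iff I).1 h2).1 hI
      rw [h1, norm_zero]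
      exact zero_le_one
    · exact h.chi_norm_le ⟨I, mem_nonZeroDivisors_of_ne_zero hI⟩

/-- A ray class character and its primitive character. -/
theorem exists_data (m : II K) (χ : Ideal (𝓞 K) → ℂ)
    (h : IsRayClassChar K (m : Ideal (𝓞 K)) χ) :
    ∃ (D : II K) (χ' : Ideal (𝓞 K) → ℂ) (S : Finset (RP K)) (f : 𝓞 K → ℂ),
      IsRayClassChar K (D : Ideal (𝓞 K)) χ' ∧ HC K D (fun I => χ' (I : Ideal (𝓞 K))) S f ∧
      (∀ I : Ideal (𝓞 K), IsCoprime I (m : Ideal (𝓞 K)) → χ' I = χ I) ∧ CM χ' ∧ CM χ := by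
  obtain ⟨D, χ', -, h1, h2, h3⟩ := exists_prim m χ h
  obtain ⟨S, f, h4⟩ := exists_HC K D χ' h1 h2
  have h5 := cm_of_HC h1 h4
  refine ⟨D, χ', S, f, h1, h4, h3, h5, h.map_one, h.map_mul, fun I => ?_⟩
  by_cases hI : χ I = 0
  · rw [hI, norm_zero]
    exact zero_le_one
  · rw [← h3 I ((h.ne_zero_iff I).1 hI).2]
    exact h5.le I

theorem cm_of_ray {m : II K} {χ : Ideal (𝓞 K) → ℂ}
    (h : IsRayClassChar K (m : Ideal (𝓞 K)) χ) : CM χ := by
  obtain ⟨-, -, -, -, -, -, -, -, h1⟩ := exists_data m χ h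
  exact h1

/-- `LL` is the L-function. -/
theorem LL_eq {D : II K} {χ : Ideal (𝓞 K) → ℂ} {S : Finset (RP K)} {f : 𝓞 K → ℂ}
    (h : HC K D (fun I => χ (I : Ideal (𝓞 K))) S f) {s : ℝ} (hs : 1 < s) :
    LL χ s = LX K D (fun I => χ (I : Ideal (𝓞 K))) S s := by
  have h1 := LX_eq h (s := (s : ℂ)) (by simpa using hs)
  rw [h1]
  unfold LL
  have hinj : Function.Injective (fun I : II K => (I : Ideal (𝓞 K))) := Subtype.val_injective
  rw [← hinj.tsum_eq]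
  · refine tsum_congr fun I => ?_
    unfold wc wt nm
    rw [← Complex.ofReal_neg, Complex.ofReal_cpow (by positivity)]
  · intro I hI
    refine ⟨⟨I, mem_nonZeroDivisors_of_ne_zero ?_⟩, rfl⟩
    rintro rfl
    apply hI
    show wc χ s ⊥ = 0
    unfold wc
    rw [wt_bot (by linarith)]
    simp

theorem tendsto_LL {D : II K} {χ : Ideal (𝓞 K) → ℂ} {S : Finset (RP K)} {f : 𝓞 K → ℂ}
    (h : HC K D (fun I => χ (I : Ideal (𝓞 K))) S f)
    (hχ : ∃ I : II K, χ (I : Ideal (𝓞 K)) ≠ 0 ∧ χ (I : Ideal (𝓞 K)) ≠ 1) :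
    Tendsto (fun s : ℝ => ‖LL χ s‖) (𝓝[>] 1)
      (𝓝 ‖LX K D (fun I => χ (I : Ideal (𝓞 K))) S 1‖) := by
  have h1 : Continuous (LX K D (fun I => χ (I : Ideal (𝓞 K))) S) :=
    (LX_differentiable h hχ).continuous
  have h2 : Tendsto (fun s : ℝ => ‖LX K D (fun I => χ (I : Ideal (𝓞 K))) S (s : ℂ)‖) (𝓝[>] 1)
      (𝓝 ‖LX K D (fun I => χ (I : Ideal (𝓞 K))) S ((1 : ℝ) : ℂ)‖) :=
    ((h1.comp Complex.continuous_ofReal).norm.tendsto 1).mono_left nhdsWithin_le_nhds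
  rw [Complex.ofReal_one] at h2
  refine h2.congr' ?_
  filter_upwards [self_mem_nhdsWithin] with s hs
  rw [LL_eq h hs]

theorem nontriv_II {χ : Ideal (𝓞 K) → ℂ} {m : Ideal (𝓞 K)} (h : IsRayClassChar K m χ)
    (hχ : ∃ I : Ideal (𝓞 K), χ I ≠ 0 ∧ χ I ≠ 1) :
    ∃ I : II K, χ (I : Ideal (𝓞 K)) ≠ 0 ∧ χ (I : Ideal (𝓞 K)) ≠ 1 := by
  obtain ⟨I, h0, h1⟩ := hχ
  exact ⟨⟨I, mem_nonZeroDivisors_of_ne_zero ((h.ne_zero_iff I).1 h0).1⟩, h0, h1⟩

/-- Upper bound of the prime sum of a nontrivial character. -/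
theorem PS_upper (m : II K) (χ : Ideal (𝓞 K) → ℂ) (h : IsRayClassChar K (m : Ideal (𝓞 K)) χ)
    (hχ : ∃ I : Ideal (𝓞 K), χ I ≠ 0 ∧ χ I ≠ 1) :
    ∃ C : ℝ, ∀ᶠ s : ℝ in 𝓝[>] 1, PS χ s ≤ C := by
  obtain ⟨D, χ', S, f, h1, h2, h3, h4, h5⟩ := exists_data m χ h
  obtain ⟨C, hC⟩ := PS_compare h5 h4 m fun I _ => h3 I
  have hχ' : ∃ I : Ideal (𝓞 K), χ' I ≠ 0 ∧ χ' I ≠ 1 := by
    obtain ⟨I, h6, h7⟩ := hχ
    have h8 := h3 I ((h.ne_zero_iff I).1 h6).2
    exact ⟨I, by rw [h8]; exact h6, by rw [h8]; exact h7⟩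
  have h6 := tendsto_LL h2 (nontriv_II h1 hχ')
  set A := ‖LX K D (fun I => χ' (I : Ideal (𝓞 K))) S 1‖ with hA
  have h7 : ∀ᶠ s : ℝ in 𝓝[>] 1, ‖LL χ' s‖ < A + 1 := h6.eventually_lt_const (by linarith)
  refine ⟨C + ZZ K 2 + Real.log (A + 1), ?_⟩
  filter_upwards [h7, self_mem_nhdsWithin] with s hs hs1
  have h8 := abs_le.1 (hC s hs1)
  have h9 := abs_le.1 (log_LL h4 hs1)
  have h10 : Real.log ‖LL χ' s‖ ≤ Real.log (A + 1) :=
    Real.log_le_log (norm_pos_iff.2 (LL_ne_zero h4 hs1)) hs.le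
  linarith [h8.1, h9.1]

/-- The 3-4-1 inequality. -/
theorem three_four_one {χ : Ideal (𝓞 K) → ℂ} (h : CM χ) (h1 : CM fun _ : Ideal (𝓞 K) => (1 : ℂ))
    (h2 : CM fun I => χ I ^ 2) {s : ℝ} (hs : 1 < s) :
    0 ≤ 3 * PS (fun _ : Ideal (𝓞 K) => (1 : ℂ)) s + 4 * PS χ s + PS (fun I => χ I ^ 2) s := by
  unfold PS
  rw [← tsum_mul_left, ← tsum_mul_left, ← Summable.tsum_add
    ((summable_PS h1 hs).mul_left 3) ((summable_PS h hs).mul_left 4),
    ← Summable.tsum_add (((summable_PS h1 hs).mul_left 3).add ((summable_PS h hs).mul_left 4))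
      (summable_PS h2 hs)]
  refine tsum_nonneg fun P => ?_
  unfold wc
  rw [Complex.re_mul_ofReal, Complex.re_mul_ofReal, Complex.re_mul_ofReal]
  have hw := wt_nonneg (F := K) s P.asIdeal
  have hz := h.le P.asIdeal
  set z := χ P.asIdeal with hzdef
  have e1 : (z ^ 2).re = z.re ^ 2 - z.im ^ 2 := by
    rw [pow_two, Complex.mul_re]
    ring
  have e2 : z.re ^ 2 + z.im ^ 2 ≤ 1 := by
    have e3 := Complex.sq_norm z
    rw [Complex.normSq_apply] at e3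
    nlinarith [norm_nonneg z]
  have e4 : 0 ≤ 3 + 4 * z.re + (z ^ 2).re := by
    rw [e1]
    nlinarith [sq_nonneg (1 + z.re)]
  have e5 : 3 * ((1 : ℂ).re * wt K s P.asIdeal) + 4 * (z.re * wt K s P.asIdeal) +
      (z ^ 2).re * wt K s P.asIdeal = (3 + 4 * z.re + (z ^ 2).re) * wt K s P.asIdeal := by
    rw [Complex.one_re]
    ring
  rw [e5]
  exact mul_nonneg e4 hw

theorem cm_one : CM fun _ : Ideal (𝓞 K) => (1 : ℂ) where
  one := rfl
  mul _ _ := (mul_one 1).symm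
  le _ := by simp

theorem PS_one (s : ℝ) : PS (fun _ : Ideal (𝓞 K) => (1 : ℂ)) s = LP K s := by
  unfold PS LP wc
  refine tsum_congr fun P => ?_
  rw [one_mul, Complex.ofReal_re]

theorem tendsto_log_inv : Tendsto (fun s : ℝ => Real.log (1 / (s - 1))) (𝓝[>] 1) atTop := by
  apply Real.tendsto_log_atTop.comp
  have h1 : Tendsto (fun s : ℝ => s - 1) (𝓝[>] 1) (𝓝[>] 0) := by
    refine tendsto_nhdsWithin_iff.2 ⟨?_, ?_⟩
    · have : Tendsto (fun s : ℝ => s - 1) (𝓝 1) (𝓝 (1 - 1)) := tendsto_id.sub_const 1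
      rw [sub_self] at this
      exact this.mono_left nhdsWithin_le_nhds
    · filter_upwards [self_mem_nhdsWithin] with s hs
      exact Set.mem_Ioi.2 (sub_pos.2 (Set.mem_Ioi.1 hs))
  have h2 := tendsto_inv_nhdsGT_zero.comp h1
  refine h2.congr fun s => ?_
  simp

/-- `L(1, χ) ≠ 0` for a nontrivial primitive character. -/
theorem L1_ne_zero {D : II K} {χ : Ideal (𝓞 K) → ℂ} {S : Finset (RP K)} {f : 𝓞 K → ℂ}
    (hr : IsRayClassChar K (D : Ideal (𝓞 K)) χ)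
    (h : HC K D (fun I => χ (I : Ideal (𝓞 K))) S f)
    (hχ : ∃ I : II K, χ (I : Ideal (𝓞 K)) ≠ 0 ∧ χ (I : Ideal (𝓞 K)) ≠ 1) :
    LX K D (fun I => χ (I : Ideal (𝓞 K))) S 1 ≠ 0 := by
  by_cases hre : ∀ I : II K, (χ (I : Ideal (𝓞 K))).im = 0
  · exact L1_real h hχ hre
  push Not at hre
  obtain ⟨I₀, hI₀⟩ := hre
  intro h0
  have hcm := cm_of_HC hr h
  -- the square
  have hr2 : IsRayClassChar K (D : Ideal (𝓞 K)) fun I => χ I ^ 2 :=
    { map_one := by rw [hr.map_one, one_pow]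
      map_mul := fun I J => by rw [hr.map_mul, mul_pow]
      ne_zero_iff := fun I => by
        rw [← hr.ne_zero_iff I]
        constructor
        · intro h1 h2
          exact h1 (by rw [h2]; simp)
        · intro h1
          exact pow_ne_zero 2 h1
      map_ray := fun x hx h1 h2 => by rw [hr.map_ray x hx h1 h2, one_pow] }
  have hnt : ∃ I : Ideal (𝓞 K), χ I ^ 2 ≠ 0 ∧ χ I ^ 2 ≠ 1 := by
    refine ⟨I₀, ?_, ?_⟩
    · apply pow_ne_zero
      intro h1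
      apply hI₀
      rw [h1]
      rfl
    · intro h1
      have h3 : (χ (I₀ : Ideal (𝓞 K)) - 1) * (χ (I₀ : Ideal (𝓞 K)) + 1) = 0 := by
        linear_combination h1
      rcases mul_eq_zero.1 h3 with h2 | h2
      · apply hI₀
        rw [sub_eq_zero.1 h2]
        rfl
      · apply hI₀
        rw [eq_neg_of_add_eq_zero_left h2]
        simp
  obtain ⟨C₂, hC₂⟩ := PS_upper D _ hr2 hnt
  obtain ⟨C₁, hC₁⟩ := LP_log K
  -- the zero
  have hLd := LX_differentiable h hχ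
  set L := LX K D (fun I => χ (I : Ideal (𝓞 K))) S with hL
  have hO : ∃ A : ℝ, 0 < A ∧ ∀ᶠ s : ℝ in 𝓝[>] 1, ‖LL χ s‖ ≤ A * (s - 1) := by
    have h1 : ContinuousAt (dslope L 1) 1 := continuousAt_dslope_same.2 (hLd 1)
    have h2 : Tendsto (fun s : ℝ => ‖dslope L 1 (s : ℂ)‖) (𝓝[>] 1) (𝓝 ‖dslope L 1 1‖) := by
      have h3 : Tendsto (fun s : ℝ => (s : ℂ)) (𝓝[>] 1) (𝓝 (1 : ℂ)) := by
        have h4 := (Complex.continuous_ofReal.tendsto 1).mono_left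
          (nhdsWithin_le_nhds (s := Set.Ioi 1))
        simpa using h4
      exact (h1.norm.tendsto).comp h3
    refine ⟨‖dslope L 1 1‖ + 1, by positivity, ?_⟩
    filter_upwards [h2.eventually_lt_const (show ‖dslope L 1 1‖ < ‖dslope L 1 1‖ + 1 by linarith),
      self_mem_nhdsWithin] with s hs hs1
    have hs1' : (1 : ℝ) < s := hs1
    rw [LL_eq h hs1]
    have hs2 : (s : ℂ) ≠ 1 := by
      intro h4
      have : s = 1 := by exact_mod_cast h4
      linarith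
    have h3 : L (s : ℂ) = ((s : ℂ) - 1) * dslope L 1 (s : ℂ) := by
      rw [dslope_of_ne _ hs2, slope_def_field, h0, sub_zero, mul_div_cancel₀]
      exact sub_ne_zero.2 hs2
    change ‖L (s : ℂ)‖ ≤ _
    rw [h3, norm_mul]
    have h4 : ‖(s : ℂ) - 1‖ = s - 1 := by
      rw [← Complex.ofReal_one, ← Complex.ofReal_sub, Complex.norm_real,
        Real.norm_of_nonneg (by linarith)]
    rw [h4, mul_comm]
    exact mul_le_mul_of_nonneg_right hs.le (by linarith)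
  obtain ⟨A, hA, hLA⟩ := hO
  have hev : ∀ᶠ s : ℝ in 𝓝[>] 1, Real.log (1 / (s - 1)) ≤
      3 * C₁ + 4 * (Real.log A + ZZ K 2) + C₂ := by
    filter_upwards [hC₂, hC₁, hLA, self_mem_nhdsWithin] with s h1 h2 h3 hs1
    have hs1' : (1 : ℝ) < s := hs1
    have h4 := three_four_one hcm cm_one
      (χ := χ) (cm_of_ray hr2) hs1
    rw [PS_one] at h4
    have h5 := (abs_le.1 h2).2
    have h6 := (abs_le.1 (log_LL hcm hs1)).1
    have h7 : Real.log ‖LL χ s‖ ≤ Real.log A - Real.log (1 / (s - 1)) := by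
      refine (Real.log_le_log (norm_pos_iff.2 (LL_ne_zero hcm hs1)) h3).trans (le_of_eq ?_)
      rw [Real.log_mul hA.ne' (by linarith), one_div, Real.log_inv]
      ring
    linarith
  obtain ⟨s, h1, h2⟩ := (hev.and (tendsto_log_inv.eventually_gt_atTop
    (3 * C₁ + 4 * (Real.log A + ZZ K 2) + C₂))).exists
  linarith

/-- Lower bound of the prime sum of a nontrivial character. -/
theorem PS_lower (m : II K) (χ : Ideal (𝓞 K) → ℂ) (h : IsRayClassChar K (m : Ideal (𝓞 K)) χ)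
    (hχ : ∃ I : Ideal (𝓞 K), χ I ≠ 0 ∧ χ I ≠ 1) :
    ∃ C : ℝ, ∀ᶠ s : ℝ in 𝓝[>] 1, -C ≤ PS χ s := by
  obtain ⟨D, χ', S, f, h1, h2, h3, h4, h5⟩ := exists_data m χ h
  obtain ⟨C, hC⟩ := PS_compare h5 h4 m fun I _ => h3 I
  have hχ' : ∃ I : Ideal (𝓞 K), χ' I ≠ 0 ∧ χ' I ≠ 1 := by
    obtain ⟨I, h6, h7⟩ := hχ
    have h8 := h3 I ((h.ne_zero_iff I).1 h6).2
    exact ⟨I, by rw [h8]; exact h6, by rw [h8]; exact h7⟩
  have hL1 := L1_ne_zero h1 h2 (nontriv_II h1 hχ')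
  have h6 := tendsto_LL h2 (nontriv_II h1 hχ')
  have hA : 0 < ‖LX K D (fun I => χ' (I : Ideal (𝓞 K))) S 1‖ := norm_pos_iff.2 hL1
  set A := ‖LX K D (fun I => χ' (I : Ideal (𝓞 K))) S 1‖ with hAdef
  have h7 : ∀ᶠ s : ℝ in 𝓝[>] 1, A / 2 < ‖LL χ' s‖ := h6.eventually_const_lt (by linarith)
  refine ⟨C + ZZ K 2 - Real.log (A / 2), ?_⟩
  filter_upwards [h7, self_mem_nhdsWithin] with s hs hs1
  have h8 := abs_le.1 (hC s hs1)
  have h9 := abs_le.1 (log_LL h4 hs1)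
  have h10 : Real.log (A / 2) ≤ Real.log ‖LL χ' s‖ :=
    Real.log_le_log (by linarith) hs.le
  linarith [h8.2, h9.2]

/-- The prime sum of the principal character. -/
theorem PS_triv (m : II K) (χ : Ideal (𝓞 K) → ℂ) (h : IsRayClassChar K (m : Ideal (𝓞 K)) χ)
    (hχ : ¬ ∃ I : Ideal (𝓞 K), χ I ≠ 0 ∧ χ I ≠ 1) :
    Tendsto (PS χ) (𝓝[>] 1) atTop := by
  push Not at hχ
  obtain ⟨C, hC⟩ := PS_compare (χ := χ) (χ' := fun _ => 1) (cm_of_ray h) cm_one m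
    (fun I hI0 hI => (hχ I ((h.ne_zero_iff I).2 ⟨hI0, hI⟩)).symm)
  obtain ⟨C₁, hC₁⟩ := LP_log K
  refine tendsto_atTop_mono' _ ?_ (tendsto_atTop_add_const_right _ (-C - C₁) tendsto_log_inv)
  filter_upwards [hC₁, self_mem_nhdsWithin] with s h1 hs1
  have h2 := abs_le.1 (hC s hs1)
  rw [PS_one] at h2
  have h3 := abs_le.1 h1
  linarith [h2.2, h3.1]

end Pool.NVR
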