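import Pool.Agent.HRC.LFun

/-!
# The Dedekind zeta function of a number field: continuation to the whole plane

`exists_E`: there is an entire function `E` with `E(s) = (s - 1) ζ_K(s)` for `Re s > 1` and
`E(-2) = 0`. Library NVR, helper72.
-/

open scoped NumberField nonZeroDivisors
open NumberField NumberField.InfinitePlace NumberField.mixedEmbedding NumberField.Units
  NumberField.Units.dirichletUnitTheorem Pool.ZD Pool.Agent.CMZ MeasureTheory Pool.HRC

namespace Pool.NVR

set_option maxHeartbeats 1000000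

variable (K : Type) [Field K] [NumberField K]

/-- The trivial character. -/
theorem HC_triv : HC K 1 (fun _ => 1) ∅ (fun _ => 1) where
  one := rfl
  mul _ _ := (mul_one 1).symm
  ne_iff I := by
    refine ⟨fun _ => ?_, fun _ => one_ne_zero⟩
    rw [Submonoid.coe_one]
    exact isCoprime_one_right
  norm _ _ := by simp
  fone := rfl
  fmul _ _ := (mul_one 1).symm
  fper _ _ _ := rfl
  fne_iff x := by
    refine ⟨fun _ => ?_, fun _ => one_ne_zero⟩
    rw [Submonoid.coe_one]
    exact isCoprime_one_right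
  fnorm _ _ := by simp
  spn x _ := by
    unfold sgn PS
    simp
  prim D hD hne := by
    exfalso
    rw [Submonoid.coe_one] at hD hne
    have h1 := isUnit_of_dvd_one hD
    rw [Ideal.isUnit_iff] at h1
    exact hne (by rw [h1, Ideal.one_eq_top])

theorem e0_triv : e0 (1 : II K) ∅ = 1 := by
  unfold e0
  simp

/-- `g(v)` for the trivial character. -/
noncomputable def g1 (v : ℝ) : ℂ := gg K 1 (fun _ => 1) ∅ v

/-- The functional equation with its two pole terms. -/
theorem g1_eq : ∃ ω B : ℂ, ∀ v : ℝ, g1 K v = ω * g1 K (-v) +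
    B * ((Real.exp (-v / 2) : ℂ) - (Real.exp (v / 2) : ℂ)) := by
  classical
  have h := HC_triv K
  obtain ⟨ω, V, hc⟩ := class_eq h
  choose J hJ hJA hv using hc
  have hD := DM_pos (1 : II K)
  have hw : (torsionOrder K : ℂ) ≠ 0 := by exact_mod_cast torsionOrder_ne_zero K
  rw [e0_triv] at hv
  simp only [map_one, mul_one, Finset.card_empty, pow_zero] at hv
  set w : ℂ := (torsionOrder K : ℂ) with hwdef
  set T : ℝ → ℂ := tot (K := K) ∅ (fun _ => 1) with hT
  set hn : ℂ := (Fintype.card (ClassGroup (𝓞 K)) : ℂ) with hhn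
  have hone : ∀ v, ∑ A : ClassGroup (𝓞 K), ZA (K := K) ∅ (fun _ => 1) A v = T v := fun v =>
    (tot_eq_sum ∅ (fun _ => by simp) v).symm
  have hnm1 : nm K 1 = 1 := Pool.Agent.CMZ.none K
  have htot : ∀ v, w * T v + hn * V =
      ((Real.exp (-v) / (nm K 1 * √|(discr K : ℝ)|) : ℝ) : ℂ) *
        (ω * (w * T (-v - Real.log (DM K 1))) + hn * V) := by
    intro v
    have h1 : ∑ A : ClassGroup (𝓞 K), (w * ZA (K := K) ∅ (fun _ => 1) A v + V) =
        w * T v + hn * V := by
      rw [Finset.sum_add_distrib, ← Finset.mul_sum, hone, Finset.sum_const, Finset.card_univ,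
        nsmul_eq_mul]
    rw [← h1, Finset.sum_congr rfl fun A _ => hv A v, ← Finset.mul_sum, Finset.sum_add_distrib,
      ← Finset.mul_sum, ← Finset.mul_sum, Finset.sum_const, Finset.card_univ, nsmul_eq_mul]
    have h2 : ∑ A : ClassGroup (𝓞 K), ZA (K := K) ∅ (fun _ => 1)
        (A⁻¹ * ClassGroup.mk0 (1 * dI K)) (-v - Real.log (DM K 1)) =
        T (-v - Real.log (DM K 1)) := by
      rw [← hone]
      let e : ClassGroup (𝓞 K) ≃ ClassGroup (𝓞 K) :=
        (Equiv.inv _).trans (Equiv.mulRight (ClassGroup.mk0 (1 * dI K)))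
      exact e.sum_comp (fun A => ZA (K := K) ∅ (fun _ => 1) A (-v - Real.log (DM K 1)))
    rw [h2]
  have hDD : DM K 1 = |(discr K : ℝ)| := by
    unfold DM
    rw [hnm1, mul_one]
  have hexp : Real.exp (Real.log (DM K 1) / 2) = √(DM K 1) := by
    rw [← Real.log_sqrt hD.le, Real.exp_log (Real.sqrt_pos.2 hD)]
  refine ⟨ω, hn * V / w, fun v => ?_⟩
  have hg : ∀ u : ℝ, g1 K u = (Real.exp (u / 2) : ℂ) * T (u - Real.log (DM K 1) / 2) := fun u => by
    unfold g1
    rw [gg_eq_tot]
  rw [hg v, hg (-v)]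
  have h3 := htot (v - Real.log (DM K 1) / 2)
  have e1 : -(v - Real.log (DM K 1) / 2) - Real.log (DM K 1) = -v - Real.log (DM K 1) / 2 := by
    ring
  have e2 : Real.exp (-(v - Real.log (DM K 1) / 2)) / (nm K 1 * √|(discr K : ℝ)|) =
      Real.exp (-v) := by
    rw [← hDD, hnm1, one_mul]
    have e3 : -(v - Real.log (DM K 1) / 2) = -v + Real.log (DM K 1) / 2 := by ring
    rw [e3, Real.exp_add, hexp, mul_div_assoc, div_self (Real.sqrt_pos.2 hD).ne', mul_one]
  rw [e1, e2] at h3
  have e4 : (Real.exp (v / 2) : ℂ) * (Real.exp (-v) : ℂ) = (Real.exp (-v / 2) : ℂ) := by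
    rw [← Complex.ofReal_mul, ← Real.exp_add]
    congr 2
    ring
  have h5 : T (v - Real.log (DM K 1) / 2) = (Real.exp (-v) : ℂ) *
      (ω * T (-v - Real.log (DM K 1) / 2)) + (hn * V / w) * ((Real.exp (-v) : ℂ) - 1) := by
    apply mul_left_cancel₀ hw
    have h6 : w * (hn * V / w) = hn * V := mul_div_cancel₀ _ hw
    linear_combination h3 - ((Real.exp (-v) : ℂ) - 1) * h6
  rw [h5, ← e4]
  ring

theorem g1_continuous : Continuous (g1 K) := gg_continuous (HC_triv K)

theorem g1_decay_pos (b : ℝ) :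
    ∃ C : ℝ, 0 < C ∧ ∀ v : ℝ, 0 ≤ v → ‖g1 K v‖ ≤ C * Real.exp (-(b * v)) :=
  gg_decay_pos (HC_triv K) b

end Pool.NVR
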