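import Pool.Agent.NVR.Zeta

/-!
# The Dedekind zeta function of a number field: continuation to the whole plane (2)
-/

open scoped NumberField nonZeroDivisors
open NumberField NumberField.InfinitePlace NumberField.mixedEmbedding NumberField.Units
  NumberField.Units.dirichletUnitTheorem Pool.ZD Pool.Agent.CMZ MeasureTheory Pool.HRC

namespace Pool.NVR

set_option maxHeartbeats 1000000

/-- The pole part. -/
noncomputable def hpt (B : ℂ) (v : ℝ) : ℂ :=
  B * ((Real.exp (-(min v 0) / 2) : ℂ) - (Real.exp (min v 0 / 2) : ℂ))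

theorem hpt_continuous (B : ℂ) : Continuous (hpt B) := by
  unfold hpt
  fun_prop

theorem hpt_pos (B : ℂ) {v : ℝ} (hv : 0 ≤ v) : hpt B v = 0 := by
  unfold hpt
  rw [min_eq_right hv]
  simp

theorem hpt_neg (B : ℂ) {v : ℝ} (hv : v ≤ 0) :
    hpt B v = B * ((Real.exp (-v / 2) : ℂ) - (Real.exp (v / 2) : ℂ)) := by
  unfold hpt
  rw [min_eq_left hv]

theorem hpt_ind (B s : ℂ) : (fun v : ℝ => hpt B v * Complex.exp ((s - 1 / 2) * v)) =
    (Set.Iic (0 : ℝ)).indicator fun v : ℝ =>
      B * (Complex.exp ((s - 1) * v) - Complex.exp (s * v)) := by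
  funext v
  rcases le_or_gt v 0 with hv | hv
  · rw [Set.indicator_of_mem (Set.mem_Iic.2 hv), hpt_neg B hv, mul_assoc, sub_mul]
    congr 2
    · rw [Complex.ofReal_exp, ← Complex.exp_add]
      congr 1
      push_cast
      ring
    · rw [Complex.ofReal_exp, ← Complex.exp_add]
      congr 1
      push_cast
      ring
  · rw [Set.indicator_of_notMem (by simpa using hv), hpt_pos B hv.le, zero_mul]

theorem hpt_int (B : ℂ) {s : ℂ} (hs : 1 < s.re) :
    (Integrable fun v : ℝ => hpt B v * Complex.exp ((s - 1 / 2) * v)) ∧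
    ∫ v : ℝ, hpt B v * Complex.exp ((s - 1 / 2) * v) = B / (s * (s - 1)) := by
  have h1 : 0 < (s - 1).re := by simpa using hs
  have h2 : 0 < s.re := by linarith
  have hi1 := integrableOn_exp_mul_complex_Iic h1 0
  have hi2 := integrableOn_exp_mul_complex_Iic h2 0
  rw [hpt_ind]
  constructor
  · rw [integrable_indicator_iff measurableSet_Iic]
    exact (hi1.sub hi2).const_mul B
  · rw [integral_indicator measurableSet_Iic, integral_const_mul, integral_sub hi1 hi2,
      integral_exp_mul_complex_Iic h1, integral_exp_mul_complex_Iic h2]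
    have h3 : s - 1 ≠ 0 := fun h => by rw [h] at h1; simp at h1
    have h4 : s ≠ 0 := fun h => by rw [h] at h2; simp at h2
    simp only [Complex.ofReal_zero, mul_zero, Complex.exp_zero]
    field_simp
    ring

/-- A superexponentially decaying function times an exponential is integrable. -/
theorem integrable_decay {g : ℝ → ℂ} (hg : Continuous g)
    (hd : ∀ b : ℝ, ∃ C : ℝ, 0 < C ∧ ∀ v : ℝ, ‖g v‖ ≤ C * Real.exp (-(b * |v|))) (z : ℂ) :
    Integrable fun v : ℝ => g v * Complex.exp (z * v) := by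
  obtain ⟨C, hC, h⟩ := hd (|z.re| + 1)
  have hint : Integrable fun v : ℝ => Real.exp (-|v|) := by
    by_contra hni
    have h1 := MeasureTheory.integral_undef hni
    have h2 := integral_comp_abs (f := fun x : ℝ => Real.exp (-x))
    rw [h1, integral_exp_neg_Ioi_zero] at h2
    norm_num at h2
  refine (hint.const_mul C).mono' ?_ (Filter.Eventually.of_forall fun v => ?_)
  · exact (hg.mul (by fun_prop)).aestronglyMeasurable
  · rw [norm_mul, Complex.norm_exp]
    have e1 : (z * v).re = z.re * v := by simp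
    rw [e1]
    have e2 : z.re * v ≤ |z.re| * |v| := (le_abs_self _).trans (abs_mul _ _).le
    calc ‖g v‖ * Real.exp (z.re * v)
        ≤ C * Real.exp (-((|z.re| + 1) * |v|)) * Real.exp (|z.re| * |v|) := by
          gcongr
          exact h v
      _ = C * Real.exp (-|v|) := by
          rw [mul_assoc, ← Real.exp_add]
          congr 2
          ring

variable (K : Type) [Field K] [NumberField K]

theorem LamX_triv : ∃ (G : ℂ → ℂ) (B : ℂ), Differentiable ℂ G ∧ ∀ s : ℂ, 1 < s.re →
    LamX K 1 (fun _ => 1) ∅ s = G s + B / (s * (s - 1)) := by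
  obtain ⟨ω, B, hω⟩ := g1_eq K
  set gr : ℝ → ℂ := fun v => g1 K v - hpt B v with hgr
  have hc : Continuous gr := (g1_continuous K).sub (hpt_continuous B)
  have hd : ∀ b : ℝ, ∃ C : ℝ, 0 < C ∧ ∀ v : ℝ, ‖gr v‖ ≤ C * Real.exp (-(b * |v|)) := by
    intro b
    obtain ⟨C, hC, h⟩ := g1_decay_pos K b
    have hω0 := norm_nonneg ω
    refine ⟨C * (1 + ‖ω‖), by positivity, fun v => ?_⟩
    rcases le_total 0 v with hv | hv
    · rw [hgr]
      simp only
      rw [hpt_pos B hv, sub_zero, abs_of_nonneg hv]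
      refine (h v hv).trans ?_
      gcongr
      nlinarith
    · rw [hgr]
      simp only
      rw [hpt_neg B hv, hω v, add_sub_cancel_right, norm_mul, abs_of_nonpos hv]
      have h1 := h (-v) (by linarith)
      calc ‖ω‖ * ‖g1 K (-v)‖ ≤ ‖ω‖ * (C * Real.exp (-(b * -v))) := by gcongr
        _ ≤ C * (1 + ‖ω‖) * Real.exp (-(b * -v)) := by
          have : 0 < Real.exp (-(b * -v)) := Real.exp_pos _
          nlinarith [mul_pos hC this]
  refine ⟨fun s => ∫ v : ℝ, gr v * Complex.exp ((s - 1 / 2) * v), B, ?_, fun s hs => ?_⟩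
  · exact (LFaux.laplace_differentiable hc hd).comp (f := fun s : ℂ => s - 1 / 2) (by fun_prop)
  · obtain ⟨i1, i2⟩ := hpt_int B hs
    rw [← i2, ← integral_add (integrable_decay hc hd _) i1]
    unfold LamX
    refine integral_congr_ae (Filter.Eventually.of_forall fun v => ?_)
    show g1 K v * _ = _
    rw [hgr]
    simp only
    ring

open Complex in
/-- `s (s-1) Λ(s) / (s Γ-factor)` is entire. -/
theorem exists_E : ∃ E : ℂ → ℂ, Differentiable ℂ E ∧ E (-2) = 0 ∧ ∀ s : ℂ, 1 < s.re →
    E s = (s - 1) * LX K 1 (fun _ => 1) ∅ s ∧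
    HasSum (fun I : II K => (nm K I : ℂ) ^ (-s)) (E s / (s - 1)) := by
  obtain ⟨G, B, hG, hL⟩ := LamX_triv K
  have hn : 0 < nrRealPlaces K + nrComplexPlaces K := by
    have h1 : 0 < Fintype.card (InfinitePlace K) := Fintype.card_pos
    rwa [card_eq_nrRealPlaces_add_nrComplexPlaces] at h1
  obtain ⟨k, hk⟩ := Nat.exists_eq_succ_of_ne_zero hn.ne'
  have hD0 : (DM K 1 : ℂ) ≠ 0 := by exact_mod_cast (DM_pos (1 : II K)).ne'
  set E : ℂ → ℂ := fun s => (s * (s - 1) * G s + B) * (DM K 1 : ℂ) ^ (-s / 2) *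
    ((2 * (Real.pi : ℂ))⁻¹ * (Gammaℝ (s + 2))⁻¹ * ((Gammaℝ s)⁻¹) ^ k *
      ((Gammaℝ (s + 1))⁻¹) ^ nrComplexPlaces K) with hE
  have hgam := differentiable_Gammaℝ_inv
  refine ⟨E, ?_, ?_, fun s hs => ?_⟩
  · rw [hE]
    refine Differentiable.mul (Differentiable.mul (by fun_prop) fun s =>
      DifferentiableAt.const_cpow (by fun_prop) (Or.inl hD0)) ?_
    refine Differentiable.mul (Differentiable.mul (Differentiable.mul (by fun_prop) ?_)
      (hgam.pow k)) (Differentiable.pow ?_ _)
    · exact hgam.comp (f := fun s : ℂ => s + 2) (by fun_prop)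
    · exact hgam.comp (f := fun s : ℂ => s + 1) (by fun_prop)
  · rw [hE]
    simp only
    have h0 : Gammaℝ (-2 + 2) = 0 := by
      rw [Gammaℝ_eq_zero_iff]
      exact ⟨0, by norm_num⟩
    rw [h0]
    simp
  · have hs0 : s ≠ 0 := fun h => by rw [h] at hs; norm_num at hs
    have hs1 : s - 1 ≠ 0 := fun h => by
      have : s = 1 := sub_eq_zero.1 h
      rw [this] at hs
      norm_num at hs
    have key : E s = (s - 1) * LX K 1 (fun _ => 1) ∅ s := by
      have hGs : GF K ∅ s = Gammaℝ s ^ (k + 1) * Gammaℝ (s + 1) ^ nrComplexPlaces K := by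
        unfold GF
        rw [Finset.card_empty, Nat.sub_zero, hk, zero_add]
      have hg2 : s * Gammaℝ s = 2 * (Real.pi : ℂ) * Gammaℝ (s + 2) := by
        rw [Gammaℝ_add_two hs0]
        have : (Real.pi : ℂ) ≠ 0 := by exact_mod_cast Real.pi_ne_zero
        field_simp
      have hg2' : (2 * (Real.pi : ℂ))⁻¹ * (Gammaℝ (s + 2))⁻¹ = s⁻¹ * (Gammaℝ s)⁻¹ := by
        rw [← mul_inv, ← mul_inv, hg2]
      rw [hE]
      simp only
      unfold LX
      rw [hL s hs, hGs, hg2', mul_inv, ← inv_pow, ← inv_pow, pow_succ]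
      field_simp
    refine ⟨key, ?_⟩
    rw [key, mul_div_cancel_left₀ _ hs1]
    have h3 := LX_hasSum (HC_triv K) hs
    simpa using h3

end Pool.NVR
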